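import Pool.Agent.Run7.h290.Decide

/-!
Additivity of cyclic length on products of words starting with a common filling word.
-/

namespace Run7.h290

open FreeGroup

section lists

variable {α : Type*}

/-- product word `w b₁ w b₂ ... w bₖ` -/
def flat (w : List (α × Bool)) (B : List (List (α × Bool))) : List (α × Bool) :=
  (B.map (fun b => w ++ b)).flatten

lemma flat_nil (w : List (α × Bool)) : flat w [] = [] := rfl

lemma flat_cons (w b : List (α × Bool)) (B : List (List (α × Bool))) :
    flat w (b :: B) = (w ++ b) ++ flat w B := by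
  simp [flat]

lemma flat_append (w : List (α × Bool)) (B C : List (List (α × Bool))) :
    flat w (B ++ C) = flat w B ++ flat w C := by
  simp [flat]

lemma xs_double (d : α × Bool) (u : List (α × Bool)) {j : ℕ} (hj : j < (u ++ u).length) :
    xs d u j = (u ++ u)[j] := by
  have h2 : u ++ u = (List.range (2 * u.length)).map (xs d u) := by
    rw [← flatten_xs]
    simp [List.replicate_succ]
  simp only [h2, List.getElem_map, List.getElem_range]

lemma blocks_read (d : α × Bool) (w : List (α × Bool)) {B B₁ B₂ : List (List (α × Bool))}
    {b : List (α × Bool)} (hB : B = B₁ ++ b :: B₂) {i : ℕ} (hi : i < (w ++ b ++ w).length) :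
    xs d (flat w B) ((flat w B₁).length + i) = (w ++ b ++ w)[i] := by
  obtain ⟨r, hr⟩ : ∃ r, flat w B₂ ++ flat w B = w ++ r := by
    cases B₂ with
    | nil =>
      cases B₁ with
      | nil =>
        refine ⟨b ++ flat w [], ?_⟩
        rw [hB, flat_nil, List.nil_append, List.nil_append, flat_cons]
        simp [flat_nil]
      | cons c B₁ =>
        refine ⟨c ++ flat w (B₁ ++ [b]), ?_⟩
        rw [hB, flat_nil, List.nil_append, List.cons_append, flat_cons]
        simp
    | cons c B₂ =>
      refine ⟨c ++ flat w B₂ ++ flat w B, ?_⟩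
      rw [flat_cons]
      simp
  have h2 : flat w B ++ flat w B = flat w B₁ ++ ((w ++ b ++ w) ++ r) := by
    have hflatB : flat w B = flat w B₁ ++ ((w ++ b) ++ flat w B₂) := by
      rw [hB, flat_append, flat_cons]
    calc flat w B ++ flat w B = (flat w B₁ ++ ((w ++ b) ++ flat w B₂)) ++ flat w B := by
          rw [← hflatB]
      _ = flat w B₁ ++ ((w ++ b) ++ (flat w B₂ ++ flat w B)) := by simp only [List.append_assoc]
      _ = _ := by rw [hr]; simp only [List.append_assoc]
  have hlen : (flat w B₁).length + i < (flat w B ++ flat w B).length := by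
    rw [h2, List.length_append, List.length_append]
    omega
  rw [xs_double d _ hlen]
  simp only [h2]
  rw [List.getElem_append_right (by omega)]
  simp only [Nat.add_sub_cancel_left]
  rw [List.getElem_append_left hi]

lemma exists_block (w : List (α × Bool)) (B : List (List (α × Bool))) {j : ℕ}
    (hj : j < (flat w B).length) :
    ∃ B₁ b B₂ o, B = B₁ ++ b :: B₂ ∧ o < (w ++ b).length ∧ j = (flat w B₁).length + o := by
  induction B generalizing j with
  | nil => simp [flat_nil] at hj
  | cons b B ih =>
    by_cases h : j < (w ++ b).length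
    · exact ⟨[], b, B, j, rfl, h, by simp [flat_nil]⟩
    · rw [flat_cons, List.length_append] at hj
      obtain ⟨B₁, c, B₂, o, h1, h2, h3⟩ := ih (j := j - (w ++ b).length) (by omega)
      refine ⟨b :: B₁, c, B₂, o, by rw [h1]; rfl, h2, ?_⟩
      rw [flat_cons, List.length_append]
      omega

lemma sum_blocks (w : List (α × Bool)) (f : ℕ → ℕ) (g : List (α × Bool) → ℕ)
    (B₁ B : List (List (α × Bool)))
    (h : ∀ C b C', B = C ++ b :: C' →
      ∑ o ∈ Finset.range (w ++ b).length, f ((flat w (B₁ ++ C)).length + o) = g b) :
    ∑ j ∈ Finset.range (flat w B).length, f ((flat w B₁).length + j) = (B.map g).sum := by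
  induction B generalizing B₁ with
  | nil => simp [flat_nil]
  | cons b B ih =>
    rw [flat_cons, List.length_append, Finset.sum_range_add]
    have h1 := h [] b B rfl
    rw [List.append_nil] at h1
    rw [h1, List.map_cons, List.sum_cons]
    congr 1
    have h2 := ih (B₁ ++ [b]) (by
      intro C c C' hC
      have := h (b :: C) c C' (by rw [hC]; rfl)
      rw [← this]
      simp)
    rw [← h2]
    apply Finset.sum_congr rfl
    intro j _
    congr 1
    rw [flat_append, flat_cons, flat_nil, List.append_nil]
    simp only [List.length_append]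
    omega

lemma reduced_pair {l : List (α × Bool)} (h : FreeGroup.IsReduced l) {i : ℕ}
    (hi : i + 1 < l.length) : l[i+1] ≠ li l[i] := by
  unfold FreeGroup.IsReduced at h
  rw [List.isChain_iff_getElem] at h
  intro heq
  have h2 := h i hi
  rw [heq] at h2
  have := h2 rfl
  unfold li at this
  simp at this

lemma redSeq_flat (d : α × Bool) {w : List (α × Bool)} {B : List (List (α × Bool))}
    (hw : w ≠ []) (hB : B ≠ []) (hred : ∀ b ∈ B, FreeGroup.IsReduced (w ++ b ++ w)) :
    RedSeq (xs d (flat w B)) := by
  intro i
  have hn : 0 < (flat w B).length := by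
    cases B with
    | nil => exact absurd rfl hB
    | cons b B =>
      rw [flat_cons]
      have := List.length_pos_of_ne_nil hw
      simp only [List.length_append]; omega
  obtain ⟨B₁, b, B₂, o, h1, h2, h3⟩ := exists_block w B
    (j := i % (flat w B).length) (Nat.mod_lt _ hn)
  have e1 : xs d (flat w B) i = xs d (flat w B) ((flat w B₁).length + o) := by
    rw [← h3, xs_mod]
  have e2 : xs d (flat w B) (i+1) = xs d (flat w B) ((flat w B₁).length + (o + 1)) := by
    rw [← add_assoc, ← h3, ← xs_mod d _ (i+1), ← xs_mod d _ (i % _ + 1), Nat.mod_add_mod]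
  have hwl := List.length_pos_of_ne_nil hw
  have ho : o + 1 < (w ++ b ++ w).length := by
    rw [List.length_append (as := w ++ b)]; omega
  rw [e1, e2, blocks_read d w h1 ho, blocks_read d w h1 (by omega)]
  apply reduced_pair
  apply hred
  rw [h1]; simp

end lists

variable {α : Type*} [DecidableEq α] [Nontrivial α] [Fintype α]

lemma wt_zero' (d : α × Bool)
    (φ : FreeGroup α ≃* FreeGroup α) {u : List (α × Bool)} (hx : RedSeq (xs d u))
    {j m a L : ℕ} (hL : 1 ≤ L) (ha : j + 1 ≤ a) (hb : a + L ≤ j + m)
    (hf : TurnFill (xs d u) a L) :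
    wt d φ (win d u j (m+1)) = 0 := by
  rw [wt_win]
  apply Finset.sum_eq_zero
  intro c _
  obtain ⟨R, hR⟩ := chiA_Bdd φ c
  rw [← TS_ncard, Set.ncard_eq_zero (TS_finite hR hx j m)]
  ext g
  simp only [Set.mem_empty_iff_false, iff_false]
  exact not_Tr_of_fill (chiA_nested φ c) (hx.path g) hR hL ha hb hf

lemma wt_block (d : α × Bool) (φ : FreeGroup α ≃* FreeGroup α)
    {w : List (α × Bool)} (hw : Filling w) {B B₁ B₂ : List (List (α × Bool))}
    {b : List (α × Bool)} (hB : B = B₁ ++ b :: B₂)
    (hred : ∀ b ∈ B, FreeGroup.IsReduced (w ++ b ++ w)) {o : ℕ} (ho : o < (w ++ b).length)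
    (m : ℕ) :
    wt d φ (win d (flat w B) ((flat w B₁).length + o) (m+1)) =
      wt d φ (win d (w ++ b) o (m+1)) := by
  have hwne : w ≠ [] := List.ne_nil_of_length_pos hw.length_pos
  have hBne : B ≠ [] := by rw [hB]; simp
  have hx := redSeq_flat d hwne hBne hred
  have hflat1 : flat w [b] = w ++ b := by simp [flat]
  have hx1 : RedSeq (xs d (w ++ b)) := by
    rw [← hflat1]
    apply redSeq_flat d hwne (by simp)
    intro c hc
    simp only [List.mem_singleton] at hc
    rw [hc]
    apply hred; rw [hB]; simp
  have read1 : ∀ i (hi : i < (w ++ b ++ w).length), xs d (w ++ b) i = (w ++ b ++ w)[i] := by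
    intro i hi
    have := blocks_read d w (B := [b]) (B₁ := []) (B₂ := []) (b := b) rfl hi
    rw [hflat1, flat_nil] at this
    simpa using this
  have read2 : ∀ i (hi : i < (w ++ b ++ w).length),
      xs d (flat w B) ((flat w B₁).length + i) = (w ++ b ++ w)[i] :=
    fun i hi => blocks_read d w hB hi
  by_cases hm : o + m < (w ++ b ++ w).length
  · congr 1
    unfold win
    apply List.map_congr_left
    intro k hk
    rw [List.mem_range] at hk
    rw [add_assoc, read2 _ (by omega), read1 _ (by omega)]
  · have hlen : (w ++ b ++ w).length = (w ++ b).length + w.length := by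
      rw [List.length_append (as := w ++ b)]
    have hget : ∀ k (hk : k < w.length), (w ++ b ++ w)[(w ++ b).length + k]'(by omega) = w[k] := by
      intro k hk
      rw [List.getElem_append_right (by omega)]
      simp
    have f1 : TurnFill (xs d (w ++ b)) (w ++ b).length w.length := by
      apply Filling.turnFill
      have : (List.range w.length).map (fun k => xs d (w ++ b) ((w ++ b).length + k)) = w := by
        apply List.ext_getElem
        · simp
        · intro k h1 h2
          simp only [List.getElem_map, List.getElem_range]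
          rw [read1 _ (by omega), hget k h2]
      rw [this]; exact hw
    have f2 : TurnFill (xs d (flat w B)) ((flat w B₁).length + (w ++ b).length) w.length := by
      apply Filling.turnFill
      have : (List.range w.length).map (fun k => xs d (flat w B)
          ((flat w B₁).length + (w ++ b).length + k)) = w := by
        apply List.ext_getElem
        · simp
        · intro k h1 h2
          simp only [List.getElem_map, List.getElem_range]
          rw [add_assoc, read2 _ (by omega), hget k h2]
      rw [this]; exact hw
    rw [wt_zero' d φ hx hw.length_pos (by omega) (by omega) f2,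
      wt_zero' d φ hx1 hw.length_pos (by omega) (by omega) f1]

/-- **Additivity**: cyclic length of all automorphic images is additive on the products
`(w b₁)(w b₂)...(w bₖ)` when `w` is filling. -/
theorem additive (d : α × Bool) (φ : FreeGroup α ≃* FreeGroup α)
    {w : List (α × Bool)} (hw : Filling w) {B : List (List (α × Bool))} (hB : B ≠ [])
    (hred : ∀ b ∈ B, FreeGroup.IsReduced (w ++ b ++ w)) :
    cycLen (φ (FreeGroup.mk (flat w B))) =
      (B.map (fun b => cycLen (φ (FreeGroup.mk (w ++ b))))).sum := by
  have hwne : w ≠ [] := List.ne_nil_of_length_pos hw.length_pos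
  obtain ⟨K₀, hK₀⟩ := cycLen_formula_word d φ
  have hne : ∀ b, w ++ b ≠ [] := fun b h => hwne (List.append_eq_nil_iff.1 h).1
  have hfne : flat w B ≠ [] := by
    cases B with
    | nil => exact absurd rfl hB
    | cons b B =>
      rw [flat_cons]
      intro h
      exact hne b (List.append_eq_nil_iff.1 h).1
  have hflat1 : ∀ b, flat w [b] = w ++ b := by intro b; simp [flat]
  rw [hK₀ _ hfne (isCyclicallyReduced_of_redSeq d hfne (redSeq_flat d hwne hB hred)) K₀ le_rfl,
    Finset.sum_comm]
  have h1 : ∀ b ∈ B, cycLen (φ (FreeGroup.mk (w ++ b))) =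
      ∑ j ∈ Finset.range (w ++ b).length, ∑ m ∈ Finset.range K₀,
        wt d φ (win d (w ++ b) j (m+1)) := by
    intro b hb
    have hx1 : RedSeq (xs d (w ++ b)) := by
      rw [← hflat1]
      apply redSeq_flat d hwne (by simp)
      intro c hc
      simp only [List.mem_singleton] at hc
      rw [hc]
      exact hred b hb
    rw [hK₀ _ (hne b) (isCyclicallyReduced_of_redSeq d (hne b) hx1) K₀ le_rfl, Finset.sum_comm]
  have h2 := sum_blocks w (fun j => ∑ m ∈ Finset.range K₀, wt d φ (win d (flat w B) j (m+1)))
    (fun b => ∑ j ∈ Finset.range (w ++ b).length, ∑ m ∈ Finset.range K₀,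
        wt d φ (win d (w ++ b) j (m+1))) [] B (by
      intro C b C' hC
      apply Finset.sum_congr rfl
      intro o ho
      rw [Finset.mem_range] at ho
      apply Finset.sum_congr rfl
      intro m _
      rw [List.nil_append]
      exact wt_block d φ hw hC hred ho m)
  simp only [flat_nil, List.length_nil, Nat.zero_add] at h2
  rw [h2]
  congr 1
  apply List.map_congr_left
  intro b hb
  exact (h1 b hb).symm

end Run7.h290
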