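import Mathlib

/-!
Half-trees (cylinders) in the Cayley tree of a free group.
-/

namespace Run7.h290

open FreeGroup

variable {α : Type*} [DecidableEq α]

omit [DecidableEq α] in
lemma red_left {l₁ l₂ : List (α × Bool)} (h : FreeGroup.IsReduced (l₁ ++ l₂)) :
    FreeGroup.IsReduced l₁ := (List.isChain_append.1 h).1

omit [DecidableEq α] in
lemma red_right {l₁ l₂ : List (α × Bool)} (h : FreeGroup.IsReduced (l₁ ++ l₂)) :
    FreeGroup.IsReduced l₂ := (List.isChain_append.1 h).2.1

omit [DecidableEq α] in
lemma red_tail {a : α × Bool} {l : List (α × Bool)} (h : FreeGroup.IsReduced (a :: l)) :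
    FreeGroup.IsReduced l := red_right (l₁ := [a]) h

/-- formal inverse of a letter -/
def li (t : α × Bool) : α × Bool := (t.1, !t.2)

omit [DecidableEq α] in
@[simp] lemma li_li (t : α × Bool) : li (li t) = t := by simp [li]

omit [DecidableEq α] in
lemma li_inj {s t : α × Bool} (h : li s = li t) : s = t := by
  rw [← li_li s, h, li_li]

omit [DecidableEq α] in
lemma li_ne (t : α × Bool) : li t ≠ t := by
  intro h
  have : (!t.2) = t.2 := congrArg Prod.snd h
  cases h2 : t.2 <;> simp [h2] at this

/-- the group element of a letter -/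
def gl (t : α × Bool) : FreeGroup α := FreeGroup.mk [t]

omit [DecidableEq α] in
lemma gl_li (t : α × Bool) : gl (li t) = (gl t)⁻¹ := by
  simp [gl, li, FreeGroup.inv_mk, FreeGroup.invRev]

omit [DecidableEq α] in
lemma gl_mul_li (t : α × Bool) : gl t * gl (li t) = 1 := by
  rw [gl_li]; simp

omit [DecidableEq α] in
lemma gl_li_mul (t : α × Bool) : gl (li t) * gl t = 1 := by
  rw [gl_li]; simp

lemma toWord_gl (t : α × Bool) : (gl t).toWord = [t] := by
  simp [gl]

/-- elements whose reduced word starts with `t` -/
def St (t : α × Bool) : Set (FreeGroup α) := {z | z.toWord.head? = some t}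

lemma mem_St {t : α × Bool} {z : FreeGroup α} : z ∈ St t ↔ z.toWord.head? = some t := Iff.rfl

lemma one_notMem_St (t : α × Bool) : (1 : FreeGroup α) ∉ St t := by
  simp [St]

lemma St_unique {s t : α × Bool} {z : FreeGroup α} (hs : z ∈ St s) (ht : z ∈ St t) : s = t := by
  rw [mem_St] at hs ht
  rw [hs] at ht
  exact Option.some.inj ht

lemma exists_St {z : FreeGroup α} (hz : z ≠ 1) : ∃ t, z ∈ St t := by
  have : z.toWord ≠ [] := by simpa using hz
  obtain ⟨t, l, h⟩ := List.exists_cons_of_ne_nil this
  exact ⟨t, by simp [St, h]⟩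

lemma toWord_mul_of_reduced {g z : FreeGroup α} (h : FreeGroup.IsReduced (g.toWord ++ z.toWord)) :
    (g * z).toWord = g.toWord ++ z.toWord := by
  rw [toWord_mul, h.reduce_eq]

/-- If `g⁻¹` and `z` do not start with a common letter, then no cancellation occurs in `g * z`. -/
lemma toWord_mul_of_disj {g z : FreeGroup α} (h : ∀ t, g⁻¹ ∈ St t → z ∉ St t) :
    (g * z).toWord = g.toWord ++ z.toWord := by
  apply toWord_mul_of_reduced
  unfold FreeGroup.IsReduced
  rw [List.isChain_append]
  refine ⟨isReduced_toWord, isReduced_toWord, ?_⟩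
  intro a ha b hb hab
  by_contra hne
  have hb' : z ∈ St b := by
    rw [mem_St]; exact hb
  apply h b _ hb'
  rw [mem_St, toWord_inv]
  have hba : b = li a := by
    unfold li
    ext
    · exact hab.symm
    · cases h1 : a.2 <;> cases h2 : b.2 <;> simp_all
  simp only [invRev, List.head?_reverse, List.getLast?_map]
  rw [Option.mem_def] at ha
  rw [ha, hba]
  rfl

lemma toWord_gl_mul {t : α × Bool} {z : FreeGroup α} (h : z ∉ St (li t)) :
    (gl t * z).toWord = t :: z.toWord := by
  rw [toWord_mul_of_disj, toWord_gl]; rfl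
  intro s hs
  rw [← gl_li, mem_St, toWord_gl] at hs
  simp at hs
  rwa [← hs]

lemma gl_mul_mem_St {t : α × Bool} {z : FreeGroup α} : gl t * z ∈ St t ↔ z ∉ St (li t) := by
  constructor
  · intro h hz
    have h1 : gl (li t) * (gl t * z) ∈ St (li t) := by
      rw [← mul_assoc, gl_li_mul, one_mul]; exact hz
    have h2 : gl t * z ∉ St (li (li t)) := by
      intro h3
      -- z = gl (li t) * w, reduced words
      have hw : ∃ w : FreeGroup α, z = gl (li t) * w ∧ z.toWord = li t :: w.toWord := by
        have hz' := hz
        rw [mem_St] at hz'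
        obtain ⟨l, hl⟩ : ∃ l, z.toWord = li t :: l := by
          cases hzz : z.toWord with
          | nil => simp [hzz] at hz'
          | cons a l => simp [hzz] at hz'; exact ⟨l, by rw [hz']⟩
        have hred : FreeGroup.IsReduced l := by
          have : FreeGroup.IsReduced z.toWord := isReduced_toWord
          rw [hl] at this
          exact red_tail this
        refine ⟨FreeGroup.mk l, ?_, ?_⟩
        · rw [← mk_toWord (x := z), hl, gl, mul_mk]; rfl
        · rw [toWord_mk, hred.reduce_eq, hl]
      obtain ⟨w, hw1, hw2⟩ := hw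
      have h4 : gl t * z = w := by
        rw [hw1, ← mul_assoc, gl_mul_li, one_mul]
      rw [h4, li_li, mem_St] at h3
      have hred : FreeGroup.IsReduced z.toWord := isReduced_toWord
      rw [hw2] at hred
      cases hww : w.toWord with
      | nil => simp [hww] at h3
      | cons a l =>
        simp [hww] at h3
        rw [hww, h3, isReduced_cons_cons] at hred
        have := hred.1 rfl
        simp [li] at this
    rw [li_li] at h2
    exact h2 h
  · intro h
    rw [mem_St, toWord_gl_mul h]
    rfl

lemma mem_St_iff {t : α × Bool} {z : FreeGroup α} : z ∈ St t ↔ gl (li t) * z ∉ St (li t) := by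
  rw [gl_mul_mem_St, li_li, not_not]

/-- The half-tree of vertices `h` such that the path from `g` to `h` starts with the letter `t`. -/
def H (g : FreeGroup α) (t : α × Bool) : Set (FreeGroup α) := {h | g⁻¹ * h ∈ St t}

lemma mem_H {g h : FreeGroup α} {t : α × Bool} : h ∈ H g t ↔ g⁻¹ * h ∈ St t := Iff.rfl

lemma H_compl (g : FreeGroup α) (t : α × Bool) : (H g t)ᶜ = H (g * gl t) (li t) := by
  ext h
  rw [Set.mem_compl_iff, mem_H, mem_H, mem_St_iff, not_not, mul_inv_rev, gl_li, mul_assoc]

lemma self_notMem_H (g : FreeGroup α) (t : α × Bool) : g ∉ H g t := by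
  rw [mem_H]; simp [one_notMem_St]

lemma next_mem_H (g : FreeGroup α) (t : α × Bool) : g * gl t ∈ H g t := by
  rw [mem_H, inv_mul_cancel_left, mem_St, toWord_gl]; rfl

lemma H_mono {g : FreeGroup α} {s t : α × Bool} (h : t ≠ li s) : H (g * gl s) t ⊆ H g s := by
  intro x hx
  rw [mem_H] at hx ⊢
  rw [mul_inv_rev, ← gl_li, mul_assoc] at hx
  rw [mem_St_iff]
  intro h2
  exact h (St_unique hx h2)

lemma mul_mem_H {k g h : FreeGroup α} {t : α × Bool} : k * h ∈ H (k * g) t ↔ h ∈ H g t := by
  rw [mem_H, mem_H, mul_inv_rev, mul_assoc, inv_mul_cancel_left]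

/-- vertices split by the directions at a vertex -/
lemma mem_H_cases (g h : FreeGroup α) : h = g ∨ ∃ t, h ∈ H g t := by
  by_cases hh : g⁻¹ * h = 1
  · left; rw [inv_mul_eq_one] at hh; exact hh.symm
  · right
    obtain ⟨t, ht⟩ := exists_St hh
    exact ⟨t, ht⟩

lemma H_disj {g h : FreeGroup α} {s t : α × Bool} (hs : h ∈ H g s) (ht : h ∈ H g t) : s = t :=
  St_unique hs ht

/-- **nestedness**: one of the four corners of `St t` and `g • St t` is empty. -/
lemma St_nested (t : α × Bool) (g : FreeGroup α) :
    ∃ P Q : Prop, ∀ h : FreeGroup α, ¬ ((h ∈ St t ↔ P) ∧ (g⁻¹ * h ∈ St t ↔ Q)) := by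
  by_cases hg : g = 1
  · refine ⟨True, False, ?_⟩
    rintro h ⟨h1, h2⟩
    subst hg
    simp at h1 h2
    exact h2 h1
  · obtain ⟨a, ha⟩ := exists_St hg
    have key : ∀ z : FreeGroup α, (∀ s, g⁻¹ ∈ St s → z ∉ St s) → g * z ∈ St a := by
      intro z hz
      rw [mem_St, toWord_mul_of_disj hz]
      rw [mem_St] at ha
      cases hgw : g.toWord with
      | nil => simp [hgw] at ha
      | cons b l => simpa [hgw] using ha
    by_cases hb : g⁻¹ ∈ St t
    · -- z ∉ St t → g z ∈ St a
      by_cases hat : a = t
      · refine ⟨False, False, ?_⟩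
        rintro h ⟨h1, h2⟩
        simp only [iff_false] at h1 h2
        apply h1
        have := key (g⁻¹ * h) (by
          intro s hs hz
          rw [St_unique hs hb] at hz
          exact h2 hz)
        rw [mul_inv_cancel_left, hat] at this
        exact this
      · refine ⟨True, False, ?_⟩
        rintro h ⟨h1, h2⟩
        simp only [iff_false, iff_true] at h1 h2
        apply hat
        have := key (g⁻¹ * h) (by
          intro s hs hz
          rw [St_unique hs hb] at hz
          exact h2 hz)
        rw [mul_inv_cancel_left] at this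
        exact St_unique this h1
    · by_cases hat : a = t
      · refine ⟨False, True, ?_⟩
        rintro h ⟨h1, h2⟩
        simp only [iff_false, iff_true] at h1 h2
        apply h1
        have := key (g⁻¹ * h) (by
          intro s hs hz
          rw [St_unique hz h2] at hs
          exact hb hs)
        rw [mul_inv_cancel_left, hat] at this
        exact this
      · refine ⟨True, True, ?_⟩
        rintro h ⟨h1, h2⟩
        simp only [iff_true] at h1 h2
        apply hat
        have := key (g⁻¹ * h) (by
          intro s hs hz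
          rw [St_unique hz h2] at hs
          exact hb hs)
        rw [mul_inv_cancel_left] at this
        exact St_unique this h1

end Run7.h290
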