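import Pool.Agent.Run7.h290.Decide

/-!
Bounded translation equivalence of uniformly filling words depends only on the set of windows.
-/

namespace Run7.h290

open FreeGroup

section basics

variable {α : Type*} [DecidableEq α]

lemma cycLen_pos {g : FreeGroup α} (hg : g ≠ 1) : 0 < cycLen g := by
  rw [Nat.pos_iff_ne_zero]
  intro h0
  have hne : ({n | ∃ h : FreeGroup α, n = (h * g * h⁻¹).norm} : Set ℕ).Nonempty :=
    ⟨_, 1, rfl⟩
  have hmem := Nat.sInf_mem hne
  have h1 : sInf {n | ∃ h : FreeGroup α, n = (h * g * h⁻¹).norm} = 0 := h0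
  rw [h1] at hmem
  obtain ⟨h, hh⟩ := hmem
  have h2 : h * g * h⁻¹ = 1 := norm_eq_zero.1 hh.symm
  apply hg
  have h3 : g = h⁻¹ * (h * g * h⁻¹) * h := by group
  rw [h3, h2]; group

lemma cycLen_aut_pos {g : FreeGroup α} (hg : g ≠ 1) (φ : FreeGroup α ≃* FreeGroup α) :
    0 < cycLen (φ g) :=
  cycLen_pos (by rwa [ne_eq, MulEquiv.map_eq_one_iff])

lemma BddTransEq.symm {g h : FreeGroup α} (hgh : BddTransEq g h) (hg : g ≠ 1) (hh : h ≠ 1) :
    BddTransEq h g := by
  obtain ⟨C, hC, H⟩ := hgh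
  refine ⟨C, hC, fun φ => ?_⟩
  have h1 : (0 : ℝ) < cycLen (φ g) := by exact_mod_cast cycLen_aut_pos hg φ
  have h2 : (0 : ℝ) < cycLen (φ h) := by exact_mod_cast cycLen_aut_pos hh φ
  obtain ⟨h3, h4⟩ := H φ
  constructor
  · rw [← inv_div]
    exact inv_anti₀ (div_pos h1 h2) h4
  · rw [← inv_div]
    have := inv_anti₀ (inv_pos.2 hC) h3
    rwa [inv_inv] at this

lemma BddTransEq.trans {g h k : FreeGroup α} (h1 : BddTransEq g h) (h2 : BddTransEq h k)
    (hg : g ≠ 1) (hh : h ≠ 1) (hk : k ≠ 1) : BddTransEq g k := by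
  obtain ⟨C, hC, H⟩ := h1
  obtain ⟨D, hD, H'⟩ := h2
  refine ⟨C * D, mul_pos hC hD, fun φ => ?_⟩
  have e1 : (0 : ℝ) < cycLen (φ g) := by exact_mod_cast cycLen_aut_pos hg φ
  have e2 : (0 : ℝ) < cycLen (φ h) := by exact_mod_cast cycLen_aut_pos hh φ
  have e3 : (0 : ℝ) < cycLen (φ k) := by exact_mod_cast cycLen_aut_pos hk φ
  have e4 : (cycLen (φ g) : ℝ) / cycLen (φ k) =
      (cycLen (φ g) / cycLen (φ h)) * (cycLen (φ h) / cycLen (φ k)) := by
    field_simp
  obtain ⟨a1, a2⟩ := H φ
  obtain ⟨b1, b2⟩ := H' φ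
  rw [e4]
  constructor
  · rw [mul_inv]
    exact mul_le_mul a1 b1 (inv_pos.2 hD).le (div_pos e1 e2).le
  · exact mul_le_mul a2 b2 (div_pos e2 e3).le hC.le

/-- natural number form of a sufficient condition -/
lemma bddTransEq_of_le {g h : FreeGroup α} (hg : g ≠ 1) (hh : h ≠ 1) {A B : ℕ}
    (h1 : ∀ φ : FreeGroup α ≃* FreeGroup α, cycLen (φ g) ≤ A * cycLen (φ h))
    (h2 : ∀ φ : FreeGroup α ≃* FreeGroup α, cycLen (φ h) ≤ B * cycLen (φ g)) :
    BddTransEq g h := by
  refine ⟨A + B + 1, by positivity, fun φ => ?_⟩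
  have e1 : (0 : ℝ) < cycLen (φ g) := by exact_mod_cast cycLen_aut_pos hg φ
  have e2 : (0 : ℝ) < cycLen (φ h) := by exact_mod_cast cycLen_aut_pos hh φ
  have f1 : (cycLen (φ g) : ℝ) ≤ A * cycLen (φ h) := by exact_mod_cast h1 φ
  have f2 : (cycLen (φ h) : ℝ) ≤ B * cycLen (φ g) := by exact_mod_cast h2 φ
  constructor
  · rw [inv_le_comm₀ (by positivity) (div_pos e1 e2), inv_div, div_le_iff₀ e1]
    nlinarith
  · rw [div_le_iff₀ e2]
    nlinarith

lemma UnifFilling.mk_ne_one {L : ℕ} {u : List (α × Bool)} (h : UnifFilling L u) :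
    FreeGroup.mk u ≠ 1 := by
  intro h1
  have h2 := congrArg FreeGroup.toWord h1
  rw [toWord_mk, h.2.1.isReduced.reduce_eq, toWord_one] at h2
  exact h.1 h2

end basics

section supp

variable {α : Type*} [DecidableEq α]

/-- set of windows -/
def supp (d : α × Bool) (L : ℕ) (u : List (α × Bool)) : Finset (Fin (L+1) → α × Bool) :=
  (Finset.range u.length).image (W d L u)

lemma le_of_supp [Nontrivial α] [Fintype α] (d : α × Bool) {L : ℕ} {u v : List (α × Bool)}
    (hu : UnifFilling L u) (hv : UnifFilling L v) (h : supp d L u ⊆ supp d L v)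
    (φ : FreeGroup α ≃* FreeGroup α) :
    cycLen (φ (FreeGroup.mk u)) ≤ u.length * cycLen (φ (FreeGroup.mk v)) := by
  rw [cycLen_eq_S d φ hu, cycLen_eq_S d φ hv, S_eq, S_eq]
  have key : ∀ j ∈ Finset.range u.length, cw d L φ (W d L u j) ≤
      ∑ j ∈ Finset.range v.length, cw d L φ (W d L v j) := by
    intro j hj
    have h1 : W d L u j ∈ supp d L v := h (Finset.mem_image_of_mem _ hj)
    obtain ⟨k, hk, hkj⟩ := Finset.mem_image.1 h1
    rw [← hkj]
    exact Finset.single_le_sum (f := fun j => cw d L φ (W d L v j))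
      (fun _ _ => Nat.zero_le _) hk
  calc _ ≤ ∑ _j ∈ Finset.range u.length, ∑ j ∈ Finset.range v.length, cw d L φ (W d L v j) :=
        Finset.sum_le_sum key
    _ = _ := by simp

lemma bdd_of_supp [Nontrivial α] [Fintype α] (d : α × Bool) {L : ℕ} {u v : List (α × Bool)}
    (hu : UnifFilling L u) (hv : UnifFilling L v) (h : supp d L u = supp d L v) :
    BddTransEq (FreeGroup.mk u) (FreeGroup.mk v) :=
  bddTransEq_of_le hu.mk_ne_one hv.mk_ne_one (le_of_supp d hu hv h.subset)
    (le_of_supp d hv hu h.symm.subset)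

/-- bounded translation equivalence on supports -/
def RS [Nontrivial α] [Fintype α] (d : α × Bool) (L : ℕ)
    (A B : Finset (Fin (L+1) → α × Bool)) : Prop :=
  ∃ u v, UnifFilling L u ∧ UnifFilling L v ∧ supp d L u = A ∧ supp d L v = B ∧
    BddTransEq (FreeGroup.mk u) (FreeGroup.mk v)

lemma bdd_iff_RS [Nontrivial α] [Fintype α] (d : α × Bool) {L : ℕ} {u v : List (α × Bool)}
    (hu : UnifFilling L u) (hv : UnifFilling L v) :
    BddTransEq (FreeGroup.mk u) (FreeGroup.mk v) ↔ RS d L (supp d L u) (supp d L v) := by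
  constructor
  · intro h
    exact ⟨u, v, hu, hv, rfl, rfl, h⟩
  · rintro ⟨u', v', hu', hv', h1, h2, h⟩
    exact ((bdd_of_supp d hu hu' h1.symm).trans h hu.mk_ne_one hu'.mk_ne_one
      hv'.mk_ne_one).trans (bdd_of_supp d hv' hv h2) hu.mk_ne_one hv'.mk_ne_one hv.mk_ne_one

/-- the support as a tuple of natural numbers -/
lemma supp_eq_iff (d : α × Bool) (L : ℕ) (u : List (α × Bool))
    (A : Finset (Fin (L+1) → α × Bool)) [Fintype α] :
    supp d L u = A ↔ ∀ w ∈ (Finset.univ : Finset (Fin (L+1) → α × Bool)),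
      ((S d L (fun w' => if w' = w then 1 else 0) u = 0) ↔ w ∉ A) := by
  have h1 : ∀ w, S d L (fun w' => if w' = w then 1 else 0) u = 0 ↔ w ∉ supp d L u := by
    intro w
    rw [S_eq, Finset.sum_eq_zero_iff]
    unfold supp
    rw [Finset.mem_image]
    push Not
    refine forall_congr' (fun j => forall_congr' (fun _ => ?_))
    by_cases h : W d L u j = w <;> simp [h]
  simp only [h1, Finset.mem_univ, true_implies, Finset.ext_iff, not_iff_not]

lemma primrecPred_const {β : Type*} [Primcodable β] (P : Prop) :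
    PrimrecPred (fun _ : β => P) := by
  classical
  by_cases h : P
  · have h3 : PrimrecPred (fun _ : β => True) := ⟨inferInstance, by simpa using Primrec.const true⟩
    exact h3.of_eq (by simp [h])
  · have h3 : PrimrecPred (fun _ : β => False) := ⟨inferInstance, by simpa using Primrec.const false⟩
    exact h3.of_eq (by simp [h])

lemma primrecPred_iff_const {β : Type*} [Primcodable β] {p : β → Prop} (h : PrimrecPred p)
    (P : Prop) : PrimrecPred (fun b => p b ↔ P) := by
  by_cases hP : P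
  · exact h.of_eq (by simp [hP])
  · exact h.not.of_eq (by simp [hP])

lemma primrecPred_supp [Primcodable α] [Fintype α] (d : α × Bool) (L : ℕ)
    (A : Finset (Fin (L+1) → α × Bool)) :
    PrimrecPred (fun u : List (α × Bool) => supp d L u = A) := by
  have h1 := primrecPred_finset_all (Finset.univ : Finset (Fin (L+1) → α × Bool))
    (fun w (u : List (α × Bool)) =>
      ((S d L (fun w' => if w' = w then 1 else 0) u = 0) ↔ w ∉ A))
    (fun w _ => primrecPred_iff_const
      (Primrec.eq.comp (primrec_S d L _) (Primrec.const 0)) _)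
  exact h1.of_eq (fun u => (supp_eq_iff d L u A).symm)

lemma primrecPred_finset_ex {β ι : Type*} [Primcodable β] (s : Finset ι) (p : ι → β → Prop)
    (h : ∀ i ∈ s, PrimrecPred (p i)) : PrimrecPred (fun b => ∃ i ∈ s, p i b) := by
  have h1 := primrecPred_finset_all s (fun i b => ¬ p i b) (fun i hi => (h i hi).not)
  refine h1.not.of_eq ?_
  intro b
  push Not
  rfl

end supp

end Run7.h290
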