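import Pool.Agent.Run7.h290.Basic

/-!
Two-colourings of a free group with finite boundary; mixed and essentially monochromatic sets.
-/

namespace Run7.h290

open FreeGroup

variable {α : Type*} [DecidableEq α]

/-- `χ` is constant along all edges issued from outside the ball of radius `R`. -/
def Bdd (χ : FreeGroup α → Bool) (R : ℕ) : Prop :=
  ∀ (h : FreeGroup α) (t : α × Bool), R < norm h → χ (h * gl t) = χ h

/-- one of the four corners of the colouring and of its translate by `k` is empty -/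
def Nested (χ : FreeGroup α → Bool) : Prop :=
  ∀ k : FreeGroup α, ∃ a b : Bool, ∀ h, ¬ (χ h = a ∧ χ (k⁻¹ * h) = b)

/-- both colours occur infinitely often in `S` -/
def Mixed (χ : FreeGroup α → Bool) (S : Set (FreeGroup α)) : Prop :=
  ∀ b : Bool, {h | h ∈ S ∧ χ h = b}.Infinite

/-- all but finitely many elements of `S` have colour `b` -/
def Ess (χ : FreeGroup α → Bool) (S : Set (FreeGroup α)) (b : Bool) : Prop :=
  {h | h ∈ S ∧ χ h ≠ b}.Finite

variable {χ : FreeGroup α → Bool} {S T : Set (FreeGroup α)} {a b : Bool} {R : ℕ}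

omit [DecidableEq α] in
lemma Ess_of_not_mixed (h : ¬ Mixed χ S) : ∃ b, Ess χ S b := by
  unfold Mixed at h
  push Not at h
  obtain ⟨b, hb⟩ := h
  refine ⟨!b, ?_⟩
  unfold Ess
  have : {h | h ∈ S ∧ χ h ≠ !b} = {h | h ∈ S ∧ χ h = b} := by
    ext h
    simp only [Set.mem_ofPred_eq]
    cases χ h <;> cases b <;> simp
  rw [this]
  exact hb

omit [DecidableEq α] in
lemma not_mixed_of_Ess (h : Ess χ S b) : ¬ Mixed χ S := by
  intro hm
  have h1 := hm (!b)
  apply h1
  refine Set.Finite.subset h ?_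
  rintro x ⟨h1, h2⟩
  refine ⟨h1, ?_⟩
  rw [h2]; simp

omit [DecidableEq α] in
lemma Ess.mono (h : Ess χ S b) (hT : T ⊆ S) : Ess χ T b :=
  Set.Finite.subset h (fun _ hx => ⟨hT hx.1, hx.2⟩)

omit [DecidableEq α] in
lemma Mixed.mono (h : Mixed χ T) (hT : T ⊆ S) : Mixed χ S :=
  fun b => (h b).mono (fun _ hx => ⟨hT hx.1, hx.2⟩)

omit [DecidableEq α] in
lemma Ess_unique (hS : S.Infinite) (ha : Ess χ S a) (hb : Ess χ S b) : a = b := by
  by_contra hne
  apply hS
  refine Set.Finite.subset (ha.union hb) ?_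
  intro x hx
  by_cases h : χ x = a
  · right
    refine ⟨hx, ?_⟩
    rw [h]; exact hne
  · left; exact ⟨hx, h⟩

/-- the element `s ^ n` for a letter `s` -/
def rp (s : α × Bool) (n : ℕ) : FreeGroup α := FreeGroup.mk (List.replicate n s)

lemma toWord_rp (s : α × Bool) (n : ℕ) : (rp s n).toWord = List.replicate n s := by
  simp [rp]

omit [DecidableEq α] in
lemma rp_succ (s : α × Bool) (n : ℕ) : rp s (n+1) = rp s n * gl s := by
  simp only [rp, gl, mul_mk, List.replicate_succ']

omit [DecidableEq α] in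
lemma rp_zero (s : α × Bool) : rp s 0 = 1 := rfl

lemma toWord_ray {z : FreeGroup α} {s : α × Bool} (h : z⁻¹ ∉ St s) (n : ℕ) :
    (z * rp s n).toWord = z.toWord ++ List.replicate n s := by
  rw [toWord_mul_of_disj, toWord_rp]
  intro t ht h2
  rw [mem_St, toWord_rp] at h2
  cases n with
  | zero => simp at h2
  | succ n =>
    simp [List.replicate_succ] at h2
    rw [h2] at h
    exact h ht

lemma norm_ray {z : FreeGroup α} {s : α × Bool} (h : z⁻¹ ∉ St s) (n : ℕ) :
    norm (z * rp s n) = norm z + n := by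
  rw [FreeGroup.norm, toWord_ray h, List.length_append, List.length_replicate, FreeGroup.norm]

lemma ray_inj {z : FreeGroup α} {s : α × Bool} (h : z⁻¹ ∉ St s) :
    Function.Injective (fun n => z * rp s n) := by
  intro m n hmn
  have : norm (z * rp s m) = norm (z * rp s n) := congrArg FreeGroup.norm hmn
  rw [norm_ray h, norm_ray h] at this
  omega

lemma ray_mem_H {g h : FreeGroup α} {s t : α × Bool} (hh : h ∈ H g t)
    (hs : (g⁻¹ * h)⁻¹ ∉ St s) (n : ℕ) : h * rp s n ∈ H g t := by
  rw [mem_H, ← mul_assoc, mem_St, toWord_ray hs]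
  rw [mem_H, mem_St] at hh
  cases hw : (g⁻¹ * h).toWord with
  | nil => simp [hw] at hh
  | cons b l => simpa [hw] using hh

lemma ray_colour (hB : Bdd χ R) {h : FreeGroup α} {s : α × Bool} (hs : h⁻¹ ∉ St s)
    (hR : R < norm h) (n : ℕ) : χ (h * rp s n) = χ h := by
  induction n with
  | zero => rw [rp_zero, mul_one]
  | succ n ih =>
    rw [rp_succ, ← mul_assoc, hB _ _ (by rw [norm_ray hs]; omega), ih]

lemma H_infinite (g : FreeGroup α) (t : α × Bool) : (H g t).Infinite := by
  apply Set.infinite_of_injective_forall_mem (f := fun n => (g * gl t) * rp t n)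
  · intro m n hmn
    have h1 : rp t m = rp t n := mul_left_cancel hmn
    have h2 := congrArg FreeGroup.toWord h1
    rw [toWord_rp, toWord_rp] at h2
    have := congrArg List.length h2
    simpa using this
  · intro n
    apply ray_mem_H (next_mem_H g t)
    rw [inv_mul_cancel_left, ← gl_li]
    rw [mem_St, toWord_gl]
    intro h
    simp at h
    exact li_ne t h

section nontriv

variable [Nontrivial α]

omit [DecidableEq α] in
lemma exists_letter_ne (s₁ s₂ : α × Bool) : ∃ s : α × Bool, s ≠ s₁ ∧ s ≠ s₂ := by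
  obtain ⟨x, y, hxy⟩ := exists_pair_ne α
  by_cases h1 : (x, true) ≠ s₁ ∧ (x, true) ≠ s₂
  · exact ⟨_, h1⟩
  by_cases h2 : (x, false) ≠ s₁ ∧ (x, false) ≠ s₂
  · exact ⟨_, h2⟩
  refine ⟨(y, true), ?_, ?_⟩
  · rintro rfl
    push Not at h1 h2
    have h1' := h1 (by intro h; exact hxy (congrArg Prod.fst h))
    have h2' := h2 (by intro h; exact hxy (congrArg Prod.fst h))
    rw [← h1'] at h2'
    simp at h2'
  · rintro rfl
    push Not at h1 h2
    by_cases h3 : (x, true) = s₁
    · by_cases h4 : (x, false) = s₁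
      · rw [← h3] at h4; simp at h4
      · exact hxy (congrArg Prod.fst (h2 h4))
    · exact hxy (congrArg Prod.fst (h1 h3))

lemma exists_letter (z₁ z₂ : FreeGroup α) : ∃ s : α × Bool, z₁ ∉ St s ∧ z₂ ∉ St s := by
  obtain ⟨x, y, hxy⟩ := exists_pair_ne α
  by_cases h1 : z₁ = 1
  · by_cases h2 : z₂ = 1
    · exact ⟨(x, true), by rw [h1]; exact one_notMem_St _, by rw [h2]; exact one_notMem_St _⟩
    · obtain ⟨t, ht⟩ := exists_St h2
      obtain ⟨s, hs, -⟩ := exists_letter_ne t t
      refine ⟨s, by rw [h1]; exact one_notMem_St _, fun h => hs (St_unique h ht)⟩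
  · obtain ⟨t1, ht1⟩ := exists_St h1
    by_cases h2 : z₂ = 1
    · obtain ⟨s, hs, -⟩ := exists_letter_ne t1 t1
      refine ⟨s, fun h => hs (St_unique h ht1), by rw [h2]; exact one_notMem_St _⟩
    · obtain ⟨t2, ht2⟩ := exists_St h2
      obtain ⟨s, hs1, hs2⟩ := exists_letter_ne t1 t2
      exact ⟨s, fun h => hs1 (St_unique h ht1), fun h => hs2 (St_unique h ht2)⟩

/-- far away vertices have the essential colour of every unmixed half-tree containing them -/
lemma Ess_eq (hB : Bdd χ R) {g h : FreeGroup α} {t : α × Bool} (hE : Ess χ (H g t) b)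
    (hh : h ∈ H g t) (hR : R < norm h) : χ h = b := by
  by_contra hne
  obtain ⟨s, hs1, hs2⟩ := exists_letter h⁻¹ (g⁻¹ * h)⁻¹
  apply (Set.infinite_of_injective_forall_mem (ray_inj hs1) (s := {x | x ∈ H g t ∧ χ x ≠ b}) ?_) hE
  intro n
  refine ⟨ray_mem_H hh hs2 n, ?_⟩
  rw [ray_colour hB hs1 hR]
  exact hne

lemma Ess_compl_eq (hB : Bdd χ R) {g h : FreeGroup α} {t : α × Bool} (hE : Ess χ (H g t)ᶜ b)
    (hh : h ∉ H g t) (hR : R < norm h) : χ h = b := by
  rw [H_compl] at hE
  have : h ∈ (H g t)ᶜ := hh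
  rw [H_compl] at this
  exact Ess_eq hB hE this hR

lemma side_infinite (g : FreeGroup α) (s t : α × Bool) :
    (H g s ∩ (H (g * gl s) t)ᶜ).Infinite := by
  obtain ⟨u, hu1, hu2⟩ := exists_letter_ne (li s) t
  refine (H_infinite (g * gl s) u).mono ?_
  intro x hx
  refine ⟨H_mono hu1 hx, ?_⟩
  intro h2
  exact hu2 (H_disj hx h2)

end nontriv

/-- outside the ball, colourings are constant along reduced extensions -/
lemma colour_ext (hB : Bdd χ R) {h : FreeGroup α} (hR : R < norm h) (l : List (α × Bool))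
    (hl : FreeGroup.IsReduced (h.toWord ++ l)) : χ (h * FreeGroup.mk l) = χ h := by
  induction l using List.reverseRecOn with
  | nil => simp [← FreeGroup.one_eq_mk]
  | append_singleton l s ih =>
    have hl' : FreeGroup.IsReduced (h.toWord ++ l) := by
      rw [← List.append_assoc] at hl; exact red_left hl
    have h1 : h * FreeGroup.mk (l ++ [s]) = (h * FreeGroup.mk l) * gl s := by
      rw [gl, mul_assoc, mul_mk]
    rw [h1, hB, ih hl']
    have hl2 : FreeGroup.IsReduced l := red_right hl'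
    have : (h * FreeGroup.mk l).toWord = h.toWord ++ l := by
      rw [toWord_mul, toWord_mk, hl2.reduce_eq, hl'.reduce_eq]
    rw [FreeGroup.norm, this, List.length_append]
    rw [FreeGroup.norm] at hR
    omega

lemma const_on_cyl (hB : Bdd χ R) {h : FreeGroup α} {t : α × Bool} (ht : h⁻¹ ∉ St t)
    (hR : R ≤ norm h) : ∀ h' ∈ H h t, χ h' = χ (h * gl t) := by
  intro h' hh'
  rw [mem_H] at hh'
  -- h' = (h * gl t) * z', with reduced product
  set z' : FreeGroup α := gl (li t) * (h⁻¹ * h') with hz'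
  have h1 : h' = (h * gl t) * z' := by
    rw [hz', gl_li]; group
  have hz1 : z' ∉ St (li t) := by
    rw [hz']
    exact mem_St_iff.1 hh'
  have h2 : (h * gl t)⁻¹ ∈ St (li t) := by
    rw [mul_inv_rev, ← gl_li, mem_St, toWord_gl_mul]
    · rfl
    · rw [li_li]; exact ht
  have hn : norm (h * gl t) = norm h + 1 := by
    have := norm_ray ht 1
    rw [rp_succ, rp_zero, one_mul] at this
    exact this
  have hred : (h * gl t * z').toWord = (h * gl t).toWord ++ z'.toWord := by
    apply toWord_mul_of_disj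
    intro s hs hz
    rw [St_unique hs h2] at hz
    exact hz1 hz
  rw [h1]
  have := colour_ext hB (h := h * gl t) (by omega) z'.toWord (by
    rw [← hred]; exact isReduced_toWord)
  rw [mk_toWord] at this
  exact this

lemma not_mixed_far (hB : Bdd χ R) {h : FreeGroup α} {t : α × Bool} (ht : h⁻¹ ∉ St t)
    (hR : R ≤ norm h) : ¬ Mixed χ (H h t) := by
  apply not_mixed_of_Ess (b := χ (h * gl t))
  unfold Ess
  convert Set.finite_empty
  ext x
  simp only [ne_eq, Set.mem_ofPred_eq, Set.mem_empty_iff_false, iff_false, not_and, not_not]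
  exact const_on_cyl hB ht hR x

end Run7.h290
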