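import Pool.Agent.Run7.h290.Trans

/-!
Counting transitions along translates of a path.
-/

namespace Run7.h290

open FreeGroup

variable {α : Type*} [DecidableEq α] {χ : FreeGroup α → Bool} {R : ℕ}

/-- product of the first `k` letters of `x` -/
def P (x : ℕ → α × Bool) (k : ℕ) : FreeGroup α := FreeGroup.mk ((List.range k).map x)

omit [DecidableEq α] in
lemma P_zero (x : ℕ → α × Bool) : P x 0 = 1 := rfl

omit [DecidableEq α] in
lemma P_succ (x : ℕ → α × Bool) (k : ℕ) : P x (k+1) = P x k * gl (x k) := by
  simp only [P, gl, mul_mk, List.range_succ, List.map_append, List.map_cons, List.map_nil]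

omit [DecidableEq α] in
lemma P_add (x : ℕ → α × Bool) (j k : ℕ) :
    P x (j + k) = P x j * P (fun i => x (j + i)) k := by
  induction k with
  | zero => rw [P_zero, mul_one]; rfl
  | succ k ih =>
    rw [← add_assoc, P_succ, ih, P_succ, mul_assoc]

/-- reduced sequences -/
def RedSeq (x : ℕ → α × Bool) : Prop := ∀ i, x (i+1) ≠ li (x i)

omit [DecidableEq α] in
lemma RedSeq.path {x : ℕ → α × Bool} (h : RedSeq x) (g : FreeGroup α) :
    Path (fun i => g * P x i) x :=
  ⟨fun i => by show g * P x (i+1) = g * P x i * gl (x i); rw [P_succ, mul_assoc], h⟩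

omit [DecidableEq α] in
lemma RedSeq.shift {x : ℕ → α × Bool} (h : RedSeq x) (j : ℕ) : RedSeq (fun i => x (j + i)) :=
  fun i => h (j + i)

/-- translates with a transition of type `m` at position `j` -/
def TS (χ : FreeGroup α → Bool) (x : ℕ → α × Bool) (j m : ℕ) : Set (FreeGroup α) :=
  {g | Tr χ (fun i => g * P x i) x j m}

/-- number of transitions of type `m` -/
noncomputable def tc (χ : FreeGroup α → Bool) (x : ℕ → α × Bool) (m : ℕ) : ℕ :=
  (TS χ x 0 m).ncard

lemma mem_TS_iff (x : ℕ → α × Bool) (j m : ℕ) (g : FreeGroup α) :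
    g ∈ TS χ x j m ↔ g * P x j ∈ TS χ (fun i => x (j + i)) 0 m := by
  unfold TS Tr
  simp only [Set.mem_ofPred_eq, Nat.zero_add]
  have : (fun i => g * P x (j + i)) = (fun i => g * P x j * P (fun i => x (j + i)) i) := by
    funext i
    rw [P_add, mul_assoc]
  rw [this]

lemma TS_ncard (x : ℕ → α × Bool) (j m : ℕ) :
    (TS χ x j m).ncard = tc χ (fun i => x (j + i)) m := by
  unfold tc
  have : TS χ (fun i => x (j + i)) 0 m = (fun g => g * P x j) '' TS χ x j m := by
    ext g
    constructor
    · intro hg
      refine ⟨g * (P x j)⁻¹, ?_, by simp⟩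
      rw [mem_TS_iff, inv_mul_cancel_right]
      exact hg
    · rintro ⟨g', hg', rfl⟩
      exact (mem_TS_iff _ _ _ _).1 hg'
  rw [this, Set.ncard_image_of_injective _ (mul_left_injective _)]

lemma P_toWord_aux {x : ℕ → α × Bool} (hx : RedSeq x) (k : ℕ) :
    (P x k).toWord = (List.range k).map x ∧ (P x k)⁻¹ ∉ St (x k) := by
  induction k with
  | zero => exact ⟨rfl, by rw [P_zero, inv_one]; exact one_notMem_St _⟩
  | succ k ih =>
    obtain ⟨ih1, ih2⟩ := ih
    have h1 : (P x (k+1)).toWord = (List.range (k+1)).map x := by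
      rw [P_succ, toWord_mul_of_disj, ih1, toWord_gl, List.range_succ, List.map_append]
      · rfl
      · intro t ht h2
        rw [mem_St, toWord_gl] at h2
        simp at h2
        rw [← h2] at ht
        exact ih2 ht
    refine ⟨h1, ?_⟩
    intro h2
    have h3 : (P x (k+1))⁻¹ ∈ St (li (x k)) := by
      rw [mem_St, toWord_inv, h1, List.range_succ, List.map_append]
      simp [invRev, li]
    exact hx k (St_unique h2 h3)

lemma P_toWord {x : ℕ → α × Bool} (hx : RedSeq x) (k : ℕ) :
    (P x k).toWord = (List.range k).map x := (P_toWord_aux hx k).1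

lemma P_norm {x : ℕ → α × Bool} (hx : RedSeq x) (k : ℕ) : norm (P x k) = k := by
  rw [FreeGroup.norm, P_toWord hx]; simp

/-- the type of a transition is bounded in terms of the radius -/
lemma Tr_bound (hB : Bdd χ R) {x : ℕ → α × Bool} (hx : RedSeq x) {g : FreeGroup α} {j m : ℕ}
    (h : Tr χ (fun i => g * P x i) x j m) : m ≤ 2 * R + 2 := by
  by_contra hm
  push Not at hm
  obtain ⟨b, -, -, h3⟩ := h
  obtain ⟨h4, h5⟩ := h3 (by omega)
  have hp := hx.path g
  have e1 : norm (g * P x (j+1)) ≤ R := by
    by_contra hlt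
    push Not at hlt
    refine far_edge hB hlt ?_ h4
    exact h5.mono (hp.anti (show j + 1 ≤ j + (m-1) by omega))
  have e2 : norm (g * P x (j+(m-1))) ≤ R := by
    by_contra hlt
    push Not at hlt
    refine far_edge hB hlt h5 ?_
    exact h4.mono (Set.compl_subset_compl.2 (hp.anti (show j + 1 ≤ j + (m-1) by omega)))
  have e3 : P x (j+(m-1)) = P x (j+1) * P (fun i => x (j + 1 + i)) (m-2) := by
    rw [← P_add]; congr 1; omega
  have e4 : P (fun i => x (j + 1 + i)) (m-2) = (g * P x (j+1))⁻¹ * (g * P x (j+(m-1))) := by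
    rw [e3]; group
  have e5 : norm (P (fun i => x (j + 1 + i)) (m-2)) = m - 2 := P_norm (hx.shift (j+1)) _
  have e6 : norm (P (fun i => x (j + 1 + i)) (m-2)) ≤ R + R := by
    rw [e4]
    calc _ ≤ norm ((g * P x (j+1))⁻¹) + norm (g * P x (j+(m-1))) := norm_mul_le _ _
      _ ≤ R + R := by rw [norm_inv_eq]; gcongr
  omega

lemma ball_finite [Finite α] (K : ℕ) : {g : FreeGroup α | norm g ≤ K}.Finite := by
  have h1 : {l : List (α × Bool) | l.length ≤ K}.Finite := List.finite_length_le _ _
  refine Set.Finite.subset (h1.preimage (f := FreeGroup.toWord) toWord_injective.injOn) ?_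
  intro g hg
  exact hg

omit [DecidableEq α] in
lemma finite_translate {S : Set (FreeGroup α)} (hS : S.Finite) (p : FreeGroup α) :
    {g : FreeGroup α | g * p ∈ S}.Finite := by
  refine (hS.image (fun g => g * p⁻¹)).subset ?_
  intro g hg
  exact ⟨g * p, hg, by simp⟩

lemma ball_translate_finite [Finite α] (K : ℕ) (p : FreeGroup α) :
    {g : FreeGroup α | norm (g * p) ≤ K}.Finite :=
  finite_translate (ball_finite K) p

lemma ball_translate_ncard (K : ℕ) (p : FreeGroup α) :
    {g : FreeGroup α | norm (g * p) ≤ K}.ncard = {g : FreeGroup α | norm g ≤ K}.ncard := by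
  have : {g : FreeGroup α | norm g ≤ K} = (fun g => g * p) '' {g : FreeGroup α | norm (g * p) ≤ K} := by
    ext g
    constructor
    · intro hg
      refine ⟨g * p⁻¹, ?_, by simp⟩
      show norm (g * p⁻¹ * p) ≤ K
      rwa [inv_mul_cancel_right]
    · rintro ⟨g', hg', rfl⟩
      exact hg'
  rw [this, Set.ncard_image_of_injective _ (mul_left_injective _)]

section nontriv
variable [Nontrivial α] [Finite α]

lemma TS_finite0 (hB : Bdd χ R) {x : ℕ → α × Bool} (hx : RedSeq x) (m : ℕ) :
    (TS χ x 0 m).Finite := by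
  refine (ball_finite (α := α) (R + m + 1)).subset ?_
  intro g hg
  have h1 : Tr0 χ (fun i => g * P x i) x m := by
    have : Tr χ (fun i => g * P x i) x 0 m := hg
    unfold Tr at this
    simpa only [Nat.zero_add] using this
  have := h1.norm_le (hx.path g) hB
  rw [P_zero, mul_one] at this
  exact this

lemma TS_finite (hB : Bdd χ R) {x : ℕ → α × Bool} (hx : RedSeq x) (j m : ℕ) :
    (TS χ x j m).Finite := by
  have h0 := TS_finite0 hB (hx.shift j) m
  have h1 := finite_translate h0 (P x j)
  refine h1.subset ?_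
  intro g hg
  rw [mem_TS_iff] at hg
  exact hg

/-- boundary of the translates: elements `g` with `χ g ≠ χ (g * p)` -/
def DS (χ : FreeGroup α → Bool) (p : FreeGroup α) : Set (FreeGroup α) := {g | χ g ≠ χ (g * p)}

lemma lower_count (hB : Bdd χ R) {x : ℕ → α × Bool} (hx : RedSeq x)
    (K N : ℕ) (hD : (DS χ (P x N)).Finite) :
    ∑ j ∈ Finset.range (N - K), ∑ m ∈ Finset.range K, tc χ (fun i => x (j + i)) m ≤
      (DS χ (P x N)).ncard + 2 * {g : FreeGroup α | norm g ≤ R}.ncard := by
  classical
  let t : ℕ × ℕ → Finset (FreeGroup α) := fun jm => (TS_finite hB hx jm.1 jm.2).toFinset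
  have hcard : ∀ jm : ℕ × ℕ, (t jm).card = tc χ (fun i => x (jm.1 + i)) jm.2 := by
    intro jm
    rw [← TS_ncard, Set.ncard_eq_toFinset_card _ (TS_finite hB hx jm.1 jm.2)]
  rw [← Finset.sum_product']
  have h1 : ∑ jm ∈ Finset.range (N - K) ×ˢ Finset.range K,
      tc χ (fun i => x (jm.1 + i)) jm.2 =
      ((Finset.range (N - K) ×ˢ Finset.range K).biUnion t).card := by
    rw [Finset.card_biUnion]
    · exact Finset.sum_congr rfl (fun jm _ => (hcard jm).symm)
    · intro a _ b _ hab
      rw [Function.onFun, Finset.disjoint_left]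
      intro g hga hgb
      simp only [t, Set.Finite.mem_toFinset] at hga hgb
      have := Tr_unique (hx.path g) hga hgb
      exact hab (Prod.ext this.1 this.2)
  rw [h1]
  set B0 := (ball_finite (α := α) R).toFinset with hB0
  set B1 := (ball_translate_finite R (P x N)).toFinset with hB1
  have hsub : (Finset.range (N - K) ×ˢ Finset.range K).biUnion t ⊆
      hD.toFinset ∪ (B0 ∪ B1) := by
    intro g hg
    rw [Finset.mem_biUnion] at hg
    obtain ⟨⟨j, m⟩, hjm, hg⟩ := hg
    simp only [Finset.mem_product, Finset.mem_range] at hjm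
    simp only [t, Set.Finite.mem_toFinset] at hg
    simp only [Finset.mem_union, Set.Finite.mem_toFinset, hB0, hB1, Set.mem_ofPred_eq]
    by_cases h0 : norm g ≤ R
    · right; left; exact h0
    by_cases hN : norm (g * P x N) ≤ R
    · right; right; exact hN
    left
    have := colours_of_Tr (hx.path g) hB hg (N := N) (by omega)
      (by rw [P_zero, mul_one]; omega) (by show R < norm (g * P x N); omega)
    rw [P_zero, mul_one] at this
    exact this
  calc _ ≤ (hD.toFinset ∪ (B0 ∪ B1)).card := Finset.card_le_card hsub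
    _ ≤ hD.toFinset.card + (B0 ∪ B1).card := Finset.card_union_le _ _
    _ ≤ hD.toFinset.card + (B0.card + B1.card) := by
        gcongr; exact Finset.card_union_le _ _
    _ = _ := by
        rw [← Set.ncard_eq_toFinset_card _ hD, hB0, hB1,
          ← Set.ncard_eq_toFinset_card _ (ball_finite (α := α) R),
          ← Set.ncard_eq_toFinset_card _ (ball_translate_finite R (P x N)), ball_translate_ncard]
        ring

lemma upper_count (hB : Bdd χ R) {x : ℕ → α × Bool} (hx : RedSeq x)
    {K N : ℕ} (hN : 0 < N) (hK : ∀ j m g, K ≤ m → ¬ Tr χ (fun i => g * P x i) x j m) :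
    (DS χ (P x N)).ncard ≤
    ∑ j ∈ Finset.range N, ∑ m ∈ Finset.range K, tc χ (fun i => x (j + i)) m +
      2 * {g : FreeGroup α | norm g ≤ R}.ncard := by
  classical
  let t : ℕ × ℕ → Finset (FreeGroup α) := fun jm => (TS_finite hB hx jm.1 jm.2).toFinset
  have hcard : ∀ jm : ℕ × ℕ, (t jm).card = tc χ (fun i => x (jm.1 + i)) jm.2 := by
    intro jm
    rw [← TS_ncard, Set.ncard_eq_toFinset_card _ (TS_finite hB hx jm.1 jm.2)]
  set B0 := (ball_finite (α := α) R).toFinset with hB0
  set B1 := (ball_translate_finite R (P x N)).toFinset with hB1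
  have hsub : DS χ (P x N) ⊆
      ((Finset.range N ×ˢ Finset.range K).biUnion t ∪ (B0 ∪ B1) : Finset (FreeGroup α)) := by
    intro g hg
    simp only [Finset.coe_union, Set.mem_union, Finset.mem_coe, Finset.mem_biUnion,
      Finset.mem_range, Finset.mem_product, Prod.exists]
    by_cases h0 : norm g ≤ R
    · right; left; simpa [hB0] using h0
    by_cases h1 : norm (g * P x N) ≤ R
    · right; right; simpa [hB1] using h1
    left
    obtain ⟨j, m, hjm, hTr⟩ := exists_Tr' (hx.path g) hB hN
      (by rw [P_zero, mul_one]; omega) (by omega)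
      (by rw [P_zero, mul_one]; exact hg)
    refine ⟨j, m, ⟨by omega, ?_⟩, ?_⟩
    · by_contra hm
      exact hK j m g (by omega) hTr
    · simp only [t, Set.Finite.mem_toFinset]
      exact hTr
  calc (DS χ (P x N)).ncard ≤ _ := Set.ncard_le_ncard hsub (Finset.finite_toSet _)
    _ = _ := Set.ncard_coe_finset _
    _ ≤ ((Finset.range N ×ˢ Finset.range K).biUnion t).card +
       (B0 ∪ B1).card := Finset.card_union_le _ _
    _ ≤ ((Finset.range N ×ˢ Finset.range K).biUnion t).card +
       (B0.card + B1.card) := by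
        gcongr; exact Finset.card_union_le _ _
    _ ≤ (∑ jm ∈ Finset.range N ×ˢ Finset.range K, (t jm).card) +
       (B0.card + B1.card) := by
        gcongr; exact Finset.card_biUnion_le
    _ = _ := by
        rw [hB0, hB1, ← Set.ncard_eq_toFinset_card _ (ball_finite (α := α) R),
          ← Set.ncard_eq_toFinset_card _ (ball_translate_finite R (P x N)), ball_translate_ncard]
        simp only [hcard]
        rw [Finset.sum_product]
        ring

end nontriv

end Run7.h290
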