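import Pool.Agent.Run7.h290.Decide

/-!
Counting criterion for translation equivalence.
-/

namespace Run7.h290

open FreeGroup

variable {α : Type*} [DecidableEq α]

lemma cycLen_inv (g : FreeGroup α) : cycLen g⁻¹ = cycLen g := by
  unfold cycLen
  congr 1
  ext n
  constructor
  · rintro ⟨h, hh⟩
    refine ⟨h, ?_⟩
    rw [hh, ← norm_inv_eq]
    congr 1
    group
  · rintro ⟨h, hh⟩
    refine ⟨h, ?_⟩
    rw [hh, ← norm_inv_eq]
    congr 1
    group

lemma sum_occ (d : α × Bool) {u : List (α × Bool)} (hu : u ≠ [])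
    (f : List (α × Bool) → ℕ) (l : ℕ) (T : Finset (List (α × Bool)))
    (hT : ∀ j ∈ Finset.range u.length, win d u j l ∈ T) (hTl : ∀ w ∈ T, w.length = l) :
    ∑ j ∈ Finset.range u.length, f (win d u j l) = ∑ w ∈ T, occ w u * f w := by
  rw [← Finset.sum_fiberwise_of_maps_to hT]
  apply Finset.sum_congr rfl
  intro w hw
  rw [occ_eq d hu, hTl w hw]
  rw [Finset.sum_congr rfl (g := fun _ => f w)]
  · simp
  · intro j hj
    rw [(Finset.mem_filter.1 hj).2]

omit [DecidableEq α] in
lemma invRev_ne_nil {u : List (α × Bool)} (hu : u ≠ []) : invRev u ≠ [] := by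
  intro h
  apply hu
  have := congrArg List.length h
  rw [invRev_length] at this
  exact List.length_eq_zero_iff.1 this

lemma cyc_invRev {u : List (α × Bool)}
    (hc : FreeGroup.IsCyclicallyReduced u) : FreeGroup.IsCyclicallyReduced (invRev u) := by
  constructor
  · rw [isReduced_iff_reduce_eq, reduce_invRev, hc.isReduced.reduce_eq]
  · intro a ha b hb hab
    simp only [invRev, List.getLast?_reverse, List.head?_reverse, List.head?_map,
      List.getLast?_map, Option.mem_def, Option.map_eq_some_iff] at ha hb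
    obtain ⟨a', ha', rfl⟩ := ha
    obtain ⟨b', hb', rfl⟩ := hb
    have := hc.2 b' hb' a' ha' (by simpa using hab.symm)
    simp [this]

variable [Nontrivial α] [Fintype α]

theorem criterion (d : α × Bool) {u v : List (α × Bool)} (hu : u ≠ []) (hv : v ≠ [])
    (hcu : FreeGroup.IsCyclicallyReduced u) (hcv : FreeGroup.IsCyclicallyReduced v)
    (h : ∀ w : List (α × Bool), ¬ Filling w.tail.dropLast →
      occ w u + occ w (invRev u) = occ w v + occ w (invRev v)) :
    TransEq (FreeGroup.mk u) (FreeGroup.mk v) := by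
  intro φ
  obtain ⟨K₀, hK₀⟩ := cycLen_formula_word d φ
  have hu' := invRev_ne_nil hu
  have hv' := invRev_ne_nil hv
  have hcu' := cyc_invRev hcu
  have hcv' := cyc_invRev hcv
  have e1 : ∀ z : List (α × Bool), cycLen (φ (FreeGroup.mk (invRev z))) =
      cycLen (φ (FreeGroup.mk z)) := by
    intro z
    rw [← FreeGroup.inv_mk, _root_.map_inv, cycLen_inv]
  have key : cycLen (φ (FreeGroup.mk u)) + cycLen (φ (FreeGroup.mk (invRev u))) =
      cycLen (φ (FreeGroup.mk v)) + cycLen (φ (FreeGroup.mk (invRev v))) := by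
    rw [hK₀ u hu hcu K₀ le_rfl, hK₀ _ hu' hcu' K₀ le_rfl, hK₀ v hv hcv K₀ le_rfl,
      hK₀ _ hv' hcv' K₀ le_rfl, ← Finset.sum_add_distrib, ← Finset.sum_add_distrib]
    apply Finset.sum_congr rfl
    intro m _
    let im : List (α × Bool) → Finset (List (α × Bool)) := fun z =>
      (Finset.range z.length).image (fun j => win d z j (m+1))
    let T := (im u ∪ im (invRev u)) ∪ (im v ∪ im (invRev v))
    have hTl : ∀ w ∈ T, w.length = m + 1 := by
      intro w hw
      simp only [T, im, Finset.mem_union, Finset.mem_image] at hw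
      rcases hw with (⟨j, -, rfl⟩ | ⟨j, -, rfl⟩) | (⟨j, -, rfl⟩ | ⟨j, -, rfl⟩) <;>
        exact win_length _ _ _ _
    have hz : ∀ z : List (α × Bool), z ≠ [] → FreeGroup.IsCyclicallyReduced z →
        ∀ w, Filling w.tail.dropLast → w.length = m + 1 → occ w z * wt d φ w = 0 := by
      intro z hzne hzc w hf hwl
      by_cases ho : occ w z = 0
      · rw [ho, zero_mul]
      · rw [occ_eq d hzne, ← ne_eq, Finset.card_ne_zero] at ho
        obtain ⟨j, hj⟩ := ho
        have hj2 := (Finset.mem_filter.1 hj).2
        rw [hwl] at hj2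
        rw [← hj2] at hf ⊢
        rw [wt_zero d φ hzne hzc j m hf, mul_zero]
    rw [sum_occ d hu (wt d φ) (m+1) T (by
        intro j hj
        exact Finset.mem_union_left _ (Finset.mem_union_left _ (Finset.mem_image_of_mem _ hj))) hTl,
      sum_occ d hu' (wt d φ) (m+1) T (by
        intro j hj
        exact Finset.mem_union_left _ (Finset.mem_union_right _ (Finset.mem_image_of_mem _ hj))) hTl,
      sum_occ d hv (wt d φ) (m+1) T (by
        intro j hj
        exact Finset.mem_union_right _ (Finset.mem_union_left _ (Finset.mem_image_of_mem _ hj))) hTl,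
      sum_occ d hv' (wt d φ) (m+1) T (by
        intro j hj
        exact Finset.mem_union_right _ (Finset.mem_union_right _ (Finset.mem_image_of_mem _ hj))) hTl,
      ← Finset.sum_add_distrib, ← Finset.sum_add_distrib]
    apply Finset.sum_congr rfl
    intro w hw
    by_cases hf : Filling w.tail.dropLast
    · rw [hz u hu hcu w hf (hTl w hw), hz _ hu' hcu' w hf (hTl w hw),
        hz v hv hcv w hf (hTl w hw), hz _ hv' hcv' w hf (hTl w hw)]
    · rw [← add_mul, ← add_mul, h w hf]
  rw [e1, e1] at key
  omega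

end Run7.h290
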