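import Pool.Agent.Run7.h290.Words

/-!
Finite determination and computability on uniformly filling words.
-/

namespace Run7.h290

open FreeGroup

variable {α : Type*}

/-- the window of length `L+1` as a function on `Fin (L+1)` -/
def W (d : α × Bool) (L : ℕ) (u : List (α × Bool)) (j : ℕ) : Fin (L+1) → α × Bool :=
  fun k => xs d u (j + k)

/-- sum of a weight over the windows of a cyclic word -/
def S (d : α × Bool) (L : ℕ) (c : (Fin (L+1) → α × Bool) → ℕ) (u : List (α × Bool)) : ℕ :=
  ((List.range u.length).map (fun j => c (W d L u j))).sum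

lemma S_eq (d : α × Bool) (L : ℕ) (c : (Fin (L+1) → α × Bool) → ℕ) (u : List (α × Bool)) :
    S d L c u = ∑ j ∈ Finset.range u.length, c (W d L u j) := by
  unfold S
  rw [Finset.sum_range, ← List.sum_ofFn, List.ofFn_eq_map]
  congr 1
  rw [← List.map_coe_finRange_eq_range, List.map_map]
  rfl

lemma take_ofFn_W (d : α × Bool) (L : ℕ) (u : List (α × Bool)) (j m : ℕ) (hm : m ≤ L + 1) :
    (List.ofFn (W d L u j)).take m = win d u j m := by
  apply List.ext_getElem
  · simp [win_length, hm]
  · intro i h1 h2
    rw [List.getElem_take, List.getElem_ofFn]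
    simp [W, win]

section wtsec
variable [DecidableEq α] [Nontrivial α] [Fintype α]

/-- total weight of the initial segments of a window -/
noncomputable def cw (d : α × Bool) (L : ℕ) (φ : FreeGroup α ≃* FreeGroup α)
    (w : Fin (L+1) → α × Bool) : ℕ :=
  ∑ m ∈ Finset.range (L+1), wt d φ ((List.ofFn w).take (m+1))

omit [Nontrivial α] in
lemma cw_W (d : α × Bool) (L : ℕ) (φ : FreeGroup α ≃* FreeGroup α)
    (u : List (α × Bool)) (j : ℕ) :
    cw d L φ (W d L u j) = ∑ m ∈ Finset.range (L+1), wt d φ (win d u j (m+1)) := by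
  unfold cw
  apply Finset.sum_congr rfl
  intro m hm
  rw [Finset.mem_range] at hm
  rw [take_ofFn_W _ _ _ _ _ (by omega)]

lemma cycLen_eq_S (d : α × Bool) (φ : FreeGroup α ≃* FreeGroup α) {L : ℕ}
    {u : List (α × Bool)} (h : UnifFilling L u) :
    cycLen (φ (FreeGroup.mk u)) = S d L (cw d L φ) u := by
  rw [cycLen_formula_unif d φ h, S_eq]
  apply Finset.sum_congr rfl
  intro j _
  rw [cw_W]

/-- linear functional of a cyclic word -/
noncomputable def lf (d : α × Bool) (L : ℕ) (u : List (α × Bool)) :
    ((Fin (L+1) → α × Bool) → ℚ) →ₗ[ℚ] ℚ :=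
  ∑ j ∈ Finset.range u.length, LinearMap.proj (W d L u j)

omit [DecidableEq α] [Nontrivial α] [Fintype α] in
lemma lf_apply (d : α × Bool) (L : ℕ) (u : List (α × Bool))
    (c : (Fin (L+1) → α × Bool) → ℕ) :
    lf d L u (fun w => (c w : ℚ)) = (S d L c u : ℚ) := by
  rw [S_eq]
  simp [lf]

omit [Nontrivial α] in
/-- finitely many automorphisms decide translation equivalence of uniformly filling words -/
theorem exists_finite_tests (d : α × Bool) (L : ℕ) :
    ∃ Φ : Finset (FreeGroup α ≃* FreeGroup α), ∀ u v : List (α × Bool),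
      (∀ φ ∈ Φ, S d L (cw d L φ) u = S d L (cw d L φ) v) →
      ∀ φ, S d L (cw d L φ) u = S d L (cw d L φ) v := by
  classical
  let f : (FreeGroup α ≃* FreeGroup α) → ((Fin (L+1) → α × Bool) → ℚ) :=
    fun φ w => (cw d L φ w : ℚ)
  have hfg : (Submodule.span ℚ (Set.range f)).FG := IsNoetherian.noetherian _
  rw [Submodule.fg_span_iff_fg_span_finset_subset] at hfg
  obtain ⟨s, hs1, hs2⟩ := hfg
  have hpre : ∀ y ∈ s, ∃ φ, f φ = y := fun y hy => hs1 hy
  choose! g hg using hpre
  refine ⟨s.image g, ?_⟩
  intro u v huv φ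
  have hker : Submodule.span ℚ (Set.range f) ≤ LinearMap.ker (lf d L u - lf d L v) := by
    rw [hs2, Submodule.span_le]
    intro y hy
    have h1 := huv (g y) (Finset.mem_image_of_mem _ hy)
    rw [SetLike.mem_coe, LinearMap.mem_ker, LinearMap.sub_apply, sub_eq_zero]
    rw [← hg y hy]
    show lf d L u (fun w => (cw d L (g y) w : ℚ)) = lf d L v (fun w => (cw d L (g y) w : ℚ))
    rw [lf_apply, lf_apply, h1]
  have h2 : f φ ∈ LinearMap.ker (lf d L u - lf d L v) :=
    hker (Submodule.subset_span ⟨φ, rfl⟩)
  rw [LinearMap.mem_ker, LinearMap.sub_apply, sub_eq_zero] at h2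
  have h3 : lf d L u (fun w => (cw d L φ w : ℚ)) = lf d L v (fun w => (cw d L φ w : ℚ)) := h2
  rw [lf_apply, lf_apply] at h3
  exact_mod_cast h3

end wtsec

/-! ### recognising uniformly filling words -/

/-- indicator of bad windows -/
noncomputable def bad [DecidableEq α] (L : ℕ) (w : Fin (L+1) → α × Bool) : ℕ := by
  classical
  exact if (∃ k : ℕ, ∃ h : k + 1 < L + 1, w ⟨k+1, h⟩ = li (w ⟨k, by omega⟩)) ∨
    ¬ Filling ((List.ofFn w).take L) then 1 else 0

lemma isCyclicallyReduced_of_redSeq (d : α × Bool) {u : List (α × Bool)} (hu : u ≠ [])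
    (h : RedSeq (xs d u)) : FreeGroup.IsCyclicallyReduced u := by
  have hn : 1 ≤ u.length := List.length_pos_of_ne_nil hu
  have key : ∀ a b : α × Bool, b ≠ li a → a.1 = b.1 → a.2 = b.2 := by
    rintro ⟨a1, a2⟩ ⟨b1, b2⟩ hne h1
    simp only at h1
    subst h1
    simp only [li, ne_eq, Prod.mk.injEq, true_and] at hne
    cases a2 <;> cases b2 <;> simp_all
  constructor
  · unfold FreeGroup.IsReduced
    rw [List.isChain_iff_getElem]
    intro i hi
    apply key
    have h1 := h i
    unfold xs at h1
    rwa [Nat.mod_eq_of_lt (show i < u.length by omega), Nat.mod_eq_of_lt (show i + 1 < u.length by omega),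
      List.getD_eq_getElem _ _ (by omega), List.getD_eq_getElem _ _ (by omega)] at h1
  · intro a ha b hb
    apply key
    have h1 := h (u.length - 1)
    unfold xs at h1
    rw [Nat.sub_add_cancel hn, Nat.mod_self, Nat.mod_eq_of_lt (by omega),
      List.getD_eq_getElem _ _ (by omega), List.getD_eq_getElem _ _ (by omega)] at h1
    rw [Option.mem_def, List.getLast?_eq_getElem?, List.getElem?_eq_getElem (by omega)] at ha
    rw [Option.mem_def, List.head?_eq_getElem?, List.getElem?_eq_getElem (by omega)] at hb
    rw [← Option.some.inj ha, ← Option.some.inj hb]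
    exact h1

lemma unifFilling_iff [DecidableEq α] [Nontrivial α] (d : α × Bool) {L : ℕ}
    {u : List (α × Bool)} :
    UnifFilling L u ↔ 1 ≤ L ∧ u ≠ [] ∧ S d L (bad L) u = 0 := by
  constructor
  · intro h
    refine ⟨h.pos, h.1, ?_⟩
    rw [S_eq]
    apply Finset.sum_eq_zero
    intro j _
    unfold bad
    rw [if_neg]
    push Not
    constructor
    · intro k hk
      exact redSeq_xs d h.1 h.2.1 (j + k)
    · rw [take_ofFn_W _ _ _ _ _ (by omega)]
      apply h.2.2 _ (win_length _ _ _ _)
      rw [cycFactor_iff d h.1]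
      exact ⟨j, by rw [win_length]⟩
  · rintro ⟨hL, hu, h⟩
    have hn : 1 ≤ u.length := List.length_pos_of_ne_nil hu
    rw [S_eq, Finset.sum_eq_zero_iff] at h
    have hW : ∀ j, W d L u (j % u.length) = W d L u j := by
      intro j
      funext k
      unfold W
      rw [← xs_mod d u (j % u.length + k), ← xs_mod d u (j + k), Nat.mod_add_mod]
    have h2 : ∀ j, bad L (W d L u j) = 0 := by
      intro j
      rw [← hW]
      exact h _ (Finset.mem_range.2 (Nat.mod_lt _ (by omega)))
    have h3 : ∀ j, (¬ ∃ k : ℕ, ∃ h : k + 1 < L + 1, W d L u j ⟨k+1, h⟩ = li (W d L u j ⟨k, by omega⟩)) ∧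
        Filling ((List.ofFn (W d L u j)).take L) := by
      intro j
      have := h2 j
      unfold bad at this
      split_ifs at this with hif
      push Not at hif
      exact ⟨by push Not; exact hif.1, hif.2⟩
    refine ⟨hu, ?_, ?_⟩
    · apply isCyclicallyReduced_of_redSeq d hu
      intro i heq
      apply (h3 i).1
      exact ⟨0, by omega, heq⟩
    · intro w hw hcf
      rw [cycFactor_iff d hu] at hcf
      obtain ⟨i, hi⟩ := hcf
      rw [hi, hw, ← take_ofFn_W d L u i L (by omega)]
      exact (h3 i).2

/-! ### computability -/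

section comp

variable [Primcodable α] [Finite α]

lemma primrec_S (d : α × Bool) (L : ℕ) (c : (Fin (L+1) → α × Bool) → ℕ) :
    Primrec (S d L c) := by
  have hW : Primrec₂ (fun (u : List (α × Bool)) (j : ℕ) => W d L u j) := by
    unfold Primrec₂
    rw [Primrec.fin_curry]
    unfold W xs
    have h1 : Primrec (fun p : (List (α × Bool) × ℕ) × Fin (L+1) =>
        (p.1.2 + (p.2 : ℕ)) % p.1.1.length) :=
      Primrec.nat_mod.comp
        (Primrec.nat_add.comp (Primrec.snd.comp Primrec.fst)
          (Primrec.fin_val.comp Primrec.snd))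
        (Primrec.list_length.comp (Primrec.fst.comp Primrec.fst))
    exact (Primrec.list_getD d).comp (Primrec.fst.comp Primrec.fst) h1
  have hc : Primrec₂ (fun (u : List (α × Bool)) (j : ℕ) => c (W d L u j)) :=
    (Primrec.dom_finite c).comp hW
  have hmap : Primrec (fun u : List (α × Bool) =>
      (List.range u.length).map (fun j => c (W d L u j))) :=
    Primrec.list_map (Primrec.list_range.comp Primrec.list_length) hc
  have hsum : Primrec (fun l : List ℕ => l.sum) := by
    have : Primrec (fun l : List ℕ => l.foldr (fun a b => a + b) 0) :=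
      Primrec.list_foldr Primrec.id (Primrec.const 0)
        (Primrec.nat_add.comp (Primrec.fst.comp Primrec.snd) (Primrec.snd.comp Primrec.snd)).to₂
    exact this.of_eq (fun l => by rw [List.sum_eq_foldr])
  exact hsum.comp hmap

lemma primrecPred_unif [DecidableEq α] [Nontrivial α] (d : α × Bool) (L : ℕ) :
    PrimrecPred (fun u : List (α × Bool) => UnifFilling L u) := by
  have h1 : PrimrecPred (fun u : List (α × Bool) => u = []) :=
    Primrec.eq.comp Primrec.id (Primrec.const [])
  have h2 : PrimrecPred (fun u : List (α × Bool) => S d L (bad L) u = 0) :=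
    Primrec.eq.comp (primrec_S d L _) (Primrec.const 0)
  by_cases hL : 1 ≤ L
  · refine (h1.not.and h2).of_eq ?_
    intro u
    rw [unifFilling_iff d]
    simp [hL]
  · have h3 : PrimrecPred (fun _ : List (α × Bool) => False) :=
      ⟨inferInstance, by simpa using Primrec.const false⟩
    refine h3.of_eq ?_
    intro u
    rw [unifFilling_iff d]
    simp [hL]

lemma primrecPred_S_eq (d : α × Bool) (L : ℕ) (c : (Fin (L+1) → α × Bool) → ℕ) :
    PrimrecPred (fun p : List (α × Bool) × List (α × Bool) => S d L c p.1 = S d L c p.2) :=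
  Primrec.eq.comp ((primrec_S d L c).comp Primrec.fst) ((primrec_S d L c).comp Primrec.snd)

lemma primrecPred_finset_all {β ι : Type*} [Primcodable β] (s : Finset ι) (p : ι → β → Prop)
    (h : ∀ i ∈ s, PrimrecPred (p i)) : PrimrecPred (fun b => ∀ i ∈ s, p i b) := by
  classical
  induction s using Finset.induction_on with
  | empty =>
    have h3 : PrimrecPred (fun _ : β => True) := ⟨inferInstance, by simpa using Primrec.const true⟩
    exact h3.of_eq (by simp)
  | insert i s hi ih =>
    have h1 := h i (Finset.mem_insert_self _ _)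
    have h2 := ih (fun j hj => h j (Finset.mem_insert_of_mem hj))
    exact (h1.and h2).of_eq (by simp)

lemma PrimrecPred.computablePred' {β : Type*} [Primcodable β] {p : β → Prop}
    (h : PrimrecPred p) : ComputablePred p := by
  obtain ⟨hd, h⟩ := h
  exact ⟨hd, h.to_comp⟩

end comp

end Run7.h290
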