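import Mathlib

/-!
Definitions used in the statements about translation equivalence in free groups.
Letters of the free group on `α` are elements `(a, ε)` of `α × Bool`, with `(a, true)` the
generator `a` and `(a, false)` its inverse; words are lists of letters.
-/

namespace Run7.h290

open FreeGroup

variable {α : Type*}

/-- Cyclic length: minimal word length in the conjugacy class. -/
noncomputable def cycLen [DecidableEq α] (g : FreeGroup α) : ℕ :=
  sInf {n | ∃ h : FreeGroup α, n = (h * g * h⁻¹).norm}

/-- Translation equivalence: all automorphic images have equal cyclic length. -/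
def TransEq [DecidableEq α] (g h : FreeGroup α) : Prop :=
  ∀ φ : FreeGroup α ≃* FreeGroup α, cycLen (φ g) = cycLen (φ h)

/-- Bounded translation equivalence: the ratio of the cyclic lengths of the automorphic images
stays between `C⁻¹` and `C`. -/
def BddTransEq [DecidableEq α] (g h : FreeGroup α) : Prop :=
  ∃ C : ℝ, 0 < C ∧ ∀ φ : FreeGroup α ≃* FreeGroup α,
    C⁻¹ ≤ (cycLen (φ g) : ℝ) / (cycLen (φ h) : ℝ) ∧ (cycLen (φ g) : ℝ) / (cycLen (φ h) : ℝ) ≤ C

/-- The Whitehead graph of a word `w`: its vertices are the letters, and `p ≠ q` are adjacent iff
`p⁻¹q` or `q⁻¹p` is a factor of `w`. -/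
def turnGraph (w : List (α × Bool)) : SimpleGraph (α × Bool) :=
  SimpleGraph.fromRel (fun p q => [(p.1, !p.2), q] <:+: w)

/-- A word is filling if its Whitehead graph is connected and has no cut vertex. -/
def Filling (w : List (α × Bool)) : Prop :=
  (turnGraph w).Connected ∧ ∀ p, ((turnGraph w).induce {p}ᶜ).Connected

/-- `w` is a factor of some power of `u`. -/
def CycFactor (w u : List (α × Bool)) : Prop := ∃ k, w <:+: (List.replicate k u).flatten

/-- `u` is nonempty, cyclically reduced, and all factors of length `L` of its powers are filling. -/
def UnifFilling (L : ℕ) (u : List (α × Bool)) : Prop :=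
  u ≠ [] ∧ FreeGroup.IsCyclicallyReduced u ∧ ∀ w, w.length = L → CycFactor w u → Filling w

/-- Number of occurrences of `w` in the cyclic word `u`: the number of positions `i` at which the
periodic word `u u u ...` reads `w`. -/
noncomputable def occ (w u : List (α × Bool)) : ℕ :=
  {i | i < u.length ∧ w <+: (List.replicate w.length (u.rotate i)).flatten}.ncard

end Run7.h290
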