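import Pool.Agent.Run7.h290.Length
import Pool.Agent.Run7.h290.Defs

/-!
Cyclic length and the local formula for the cyclic length of automorphic images.
-/

namespace Run7.h290

open FreeGroup

variable {α : Type*} [DecidableEq α]

lemma arith {a b K M0 : ℕ} (h : ∀ M, M0 ≤ M → M * a ≤ M * b + K) : a ≤ b := by
  by_contra hlt
  push Not at hlt
  have h1 := h (M0 + K + 1) (by omega)
  have h2 : (M0 + K + 1) * (b + 1) ≤ (M0 + K + 1) * a := Nat.mul_le_mul_left _ hlt
  rw [mul_add, mul_one] at h2
  omega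

lemma norm_pow_eq (g : FreeGroup α) (M : ℕ) :
    norm (g ^ (M+1)) = (M+1) * (reduceCyclically g.toWord).length +
      2 * (reduceCyclically.conjugator g.toWord).length := by
  rw [FreeGroup.norm, toWord_pow, reduceCyclically.reduce_flatten_replicate_succ isReduced_toWord]
  simp [List.length_flatten, List.map_replicate]
  ring

lemma cyclen_eq (g : FreeGroup α) : cycLen g = (reduceCyclically g.toWord).length := by
  apply le_antisymm
  · set c := FreeGroup.mk (reduceCyclically.conjugator g.toWord) with hc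
    set z := FreeGroup.mk (reduceCyclically g.toWord) with hz
    have h2 : c * z * c⁻¹ = g := by
      rw [hc, hz, inv_mk, mul_mk, mul_mk, reduceCyclically.conj_conjugator_reduceCyclically,
        mk_toWord]
    have h1 : c⁻¹ * g * (c⁻¹)⁻¹ = z := by
      rw [← h2]; group
    have h3 : cycLen g ≤ norm z := by
      apply Nat.sInf_le
      exact ⟨c⁻¹, by rw [h1]⟩
    exact h3.trans norm_mk_le
  · have hne : ({n | ∃ h : FreeGroup α, n = (h * g * h⁻¹).norm} : Set ℕ).Nonempty :=
      ⟨_, 1, rfl⟩
    refine le_csInf hne ?_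
    rintro n ⟨h, rfl⟩
    apply arith (K := 2 * norm h) (M0 := 1)
    intro M hM
    obtain ⟨M, rfl⟩ : ∃ k, M = k + 1 := ⟨M - 1, by omega⟩
    have h1 := norm_pow_eq g M
    have h2 : g ^ (M+1) = h⁻¹ * (h * g * h⁻¹) ^ (M+1) * h := by
      rw [conj_pow]; group
    have h3 : norm (g ^ (M+1)) ≤ norm h + norm ((h * g * h⁻¹) ^ (M+1)) + norm h := by
      rw [h2]
      calc _ ≤ norm (h⁻¹ * (h * g * h⁻¹) ^ (M+1)) + norm h := norm_mul_le _ _
        _ ≤ norm h⁻¹ + norm ((h * g * h⁻¹) ^ (M+1)) + norm h := by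
          gcongr; exact norm_mul_le _ _
        _ = _ := by rw [norm_inv_eq]
    have h4 : ∀ (z : FreeGroup α) (k : ℕ), norm (z ^ k) ≤ k * norm z := by
      intro z k
      induction k with
      | zero => simp
      | succ k ih =>
        rw [pow_succ]
        calc _ ≤ norm (z ^ k) + norm z := norm_mul_le _ _
          _ ≤ k * norm z + norm z := by gcongr
          _ = _ := by ring
    have h5 := h4 (h * g * h⁻¹) (M+1)
    omega

lemma norm_pow_cycLen (g : FreeGroup α) :
    ∃ C, ∀ M, 1 ≤ M → norm (g ^ M) = M * cycLen g + C := by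
  refine ⟨2 * (reduceCyclically.conjugator g.toWord).length, ?_⟩
  intro M hM
  obtain ⟨M, rfl⟩ : ∃ k, M = k + 1 := ⟨M - 1, by omega⟩
  rw [norm_pow_eq, cyclen_eq]

lemma sum_periodic {s : ℕ → ℕ} {n : ℕ} (hs : ∀ i, s (n + i) = s i) (M : ℕ) :
    ∑ j ∈ Finset.range (M * n), s j = M * ∑ j ∈ Finset.range n, s j := by
  have hs' : ∀ M i, s (M * n + i) = s i := by
    intro M
    induction M with
    | zero => intro i; simp
    | succ M ih => intro i; rw [add_mul, one_mul, add_comm (M * n) n, add_assoc, hs, ih]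
  induction M with
  | zero => simp
  | succ M ih =>
    rw [add_mul, one_mul, Finset.sum_range_add, ih]
    simp only [hs']
    ring

omit [DecidableEq α] in
lemma P_pow {x : ℕ → α × Bool} {n : ℕ} (hx : ∀ i, x (n + i) = x i) (M : ℕ) :
    P x (M * n) = (P x n) ^ M := by
  induction M with
  | zero => simp [P_zero]
  | succ M ih =>
    have hx' : ∀ M i, x (M * n + i) = x i := by
      intro M
      induction M with
      | zero => intro i; simp
      | succ M ih => intro i; rw [add_mul, one_mul, add_comm (M * n) n, add_assoc, hx, ih]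
    rw [add_mul, one_mul, P_add, ih, pow_succ]
    congr 2
    funext i
    exact hx' M i

/-- **Local formula** for the cyclic length of automorphic images of periodic words. -/
theorem cyclen_formula_gen [Nontrivial α] [Fintype α] (φ : FreeGroup α ≃* FreeGroup α) :
    ∃ K₀, ∀ (x : ℕ → α × Bool) (_ : RedSeq x) (n : ℕ) (_ : 1 ≤ n) (_ : ∀ i, x (n + i) = x i)
      (K : ℕ) (_ : ∀ j m g a, K ≤ m → m < K₀ → ¬ Tr (chiA φ a) (fun i => g * P x i) x j m),
    cycLen (φ (P x n)) = ∑ j ∈ Finset.range n, ∑ a, ∑ m ∈ Finset.range K,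
      tc (chiA φ a) (fun i => x (j + i)) m := by
  classical
  choose R hR using chiA_Bdd (α := α) φ
  obtain ⟨Rm, hRm⟩ : ∃ Rm, ∀ a, R a ≤ Rm := ⟨∑ a, R a, fun a =>
    Finset.single_le_sum (fun _ _ => Nat.zero_le _) (Finset.mem_univ a)⟩
  refine ⟨2 * Rm + 3, ?_⟩
  intro x hx n hn hper K hK0
  have hK : ∀ a j m g, K ≤ m → ¬ Tr (chiA φ a) (fun i => g * P x i) x j m := by
    intro a j m g hKm hTr
    have := Tr_bound (hR a) hx hTr
    have h2 := hRm a
    exact hK0 j m g a hKm (by omega) hTr
  obtain ⟨C, hC⟩ := norm_pow_cycLen (φ (P x n))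
  set s : α → ℕ → ℕ := fun a j => ∑ m ∈ Finset.range K, tc (chiA φ a) (fun i => x (j + i)) m
    with hs
  have hsper : ∀ a i, s a (n + i) = s a i := by
    intro a i
    simp only [hs]
    apply Finset.sum_congr rfl
    intro m _
    congr 1
    funext k
    rw [add_assoc, hper]
  have hpow : ∀ M, norm ((φ (P x n)) ^ M) = ∑ a, (DS (chiA φ a) (P x (M * n))).ncard := by
    intro M
    rw [sum_DS_chiA, P_pow hper, map_pow]
  rw [Finset.sum_comm]
  show cycLen (φ (P x n)) = ∑ a, ∑ j ∈ Finset.range n, s a j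
  apply le_antisymm
  · apply arith (K := ∑ a, 2 * {g : FreeGroup α | norm g ≤ R a}.ncard) (M0 := 1)
    intro M hM
    have hMn : 0 < M * n := Nat.mul_pos (by omega) (by omega)
    have h1 : M * cycLen (φ (P x n)) ≤ norm ((φ (P x n)) ^ M) := by
      rw [hC M (by omega)]; omega
    refine h1.trans ?_
    rw [hpow, Finset.mul_sum, ← Finset.sum_add_distrib]
    apply Finset.sum_le_sum
    intro a _
    rw [← sum_periodic (hsper a)]
    exact upper_count (hR a) hx hMn (hK a)
  · apply arith (K := C + (∑ a, 2 * {g : FreeGroup α | norm g ≤ R a}.ncard) +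
        K * ∑ a, ∑ j ∈ Finset.range n, s a j) (M0 := K + 1)
    intro M hM
    have h1 : (M - K) * ∑ a, ∑ j ∈ Finset.range n, s a j ≤
        norm ((φ (P x n)) ^ M) + ∑ a, 2 * {g : FreeGroup α | norm g ≤ R a}.ncard := by
      rw [hpow, Finset.mul_sum, ← Finset.sum_add_distrib]
      apply Finset.sum_le_sum
      intro a _
      rw [← sum_periodic (hsper a)]
      refine le_trans ?_ (lower_count (hR a) hx K (M * n) (DS_chiA_finite φ a _))
      apply Finset.sum_le_sum_of_subset
      intro j hj
      rw [Finset.mem_range] at hj ⊢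
      refine lt_of_lt_of_le hj ?_
      rw [Nat.sub_mul]
      have : K ≤ K * n := Nat.le_mul_of_pos_right _ (by omega)
      omega
    rw [hC M (by omega)] at h1
    rw [Nat.sub_mul] at h1
    omega

/-- Local formula, for words all of whose factors of length `L` are filling. -/
theorem cyclen_formula [Nontrivial α] [Fintype α] (φ : FreeGroup α ≃* FreeGroup α)
    {x : ℕ → α × Bool} (hx : RedSeq x) {n L : ℕ} (hn : 1 ≤ n) (hper : ∀ i, x (n + i) = x i)
    (hL : 1 ≤ L) (hf : ∀ i, TurnFill x i L) :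
    cycLen (φ (P x n)) = ∑ j ∈ Finset.range n, ∑ a, ∑ m ∈ Finset.range (L+1),
      tc (chiA φ a) (fun i => x (j + i)) m := by
  obtain ⟨K₀, h⟩ := cyclen_formula_gen φ
  apply h x hx n hn hper
  intro j m g a hm _
  obtain ⟨R, hR⟩ := chiA_Bdd φ a
  exact not_Tr_of_fill (chiA_nested φ a) (hx.path g) hR hL le_rfl (by omega) (hf (j+1))

end Run7.h290
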