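import Pool.Agent.Run7.h290.Count

/-!
Word length of automorphic images as a count of boundary crossings.
-/

namespace Run7.h290

open FreeGroup

variable {α : Type*} [DecidableEq α]

instance (t : α × Bool) (z : FreeGroup α) : Decidable (z ∈ St t) := by
  unfold St; exact inferInstanceAs (Decidable (_ = _))

/-- colouring of a free group by the half-tree of elements starting with a generator -/
def chi (a : α) (z : FreeGroup α) : Bool := decide (z ∈ St (a, true))

lemma chi_true {a : α} {z : FreeGroup α} : chi a z = true ↔ z ∈ St (a, true) := by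
  simp [chi]

lemma chi_false {a : α} {z : FreeGroup α} : chi a z = false ↔ z ∉ St (a, true) := by
  simp [chi]

lemma head_mul {h : FreeGroup α} {b t : α × Bool} (hb : h ∈ St b) (h1 : h * gl t ≠ 1) :
    h * gl t ∈ St b := by
  by_cases hc : h⁻¹ ∈ St t
  · have h2 : (h * gl t)⁻¹ ∉ St (li t) := by
      rw [mul_inv_rev, ← gl_li]
      exact mem_St_iff.1 hc
    have h3 : (h * gl t * gl (li t)).toWord = (h * gl t).toWord ++ [li t] := by
      rw [toWord_mul_of_disj, toWord_gl]
      intro s hs hs2
      have : s = li t := by
        rw [mem_St, toWord_gl] at hs2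
        simpa using hs2.symm
      rw [this] at hs
      exact h2 hs
    rw [mul_assoc, gl_mul_li, mul_one] at h3
    rw [mem_St] at hb ⊢
    rw [h3] at hb
    cases hw : (h * gl t).toWord with
    | nil => exact absurd (toWord_eq_nil_iff.1 hw) h1
    | cons c l => simpa [hw] using hb
  · have h3 : (h * gl t).toWord = h.toWord ++ [t] := by
      rw [toWord_mul_of_disj, toWord_gl]
      intro s hs hs2
      have : s = t := by
        rw [mem_St, toWord_gl] at hs2
        simpa using hs2.symm
      rw [this] at hs
      exact hc hs
    rw [mem_St] at hb ⊢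
    rw [h3]
    cases hw : h.toWord with
    | nil => simp [hw] at hb
    | cons c l => simpa [hw] using hb

lemma gl_mem_St {s t : α × Bool} : gl s ∈ St t ↔ s = t := by
  rw [mem_St, toWord_gl]; simp

lemma gl_inj {s t : α × Bool} (h : gl s = gl t) : s = t := by
  have : gl t ∈ St s := by rw [← h]; exact gl_mem_St.2 rfl
  exact (gl_mem_St.1 this).symm

lemma chi_edge {a : α} {h : FreeGroup α} {t : α × Bool} (hne : chi a (h * gl t) ≠ chi a h) :
    (t = (a, true) ∧ h = 1) ∨ (t = (a, false) ∧ h = gl (a, true)) := by
  by_cases h1 : h = 1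
  · left
    subst h1
    refine ⟨?_, rfl⟩
    rw [one_mul] at hne
    have : chi a (1 : FreeGroup α) = false := chi_false.2 (one_notMem_St _)
    rw [this, ne_eq, Bool.not_eq_false, chi_true, gl_mem_St] at hne
    exact hne
  by_cases h2 : h * gl t = 1
  · right
    rw [h2] at hne
    have : chi a (1 : FreeGroup α) = false := chi_false.2 (one_notMem_St _)
    rw [this, ne_comm, ne_eq, Bool.not_eq_false, chi_true] at hne
    have h3 : h = gl (li t) := by rw [gl_li]; exact eq_inv_of_mul_eq_one_left h2
    rw [h3, gl_mem_St] at hne
    constructor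
    · rw [← li_li t, hne]; rfl
    · rw [h3, hne]
  · exfalso
    apply hne
    obtain ⟨b, hb⟩ := exists_St h1
    have hb2 := head_mul hb h2
    by_cases hba : b = (a, true)
    · subst hba
      rw [chi_true.2 hb, chi_true.2 hb2]
    · rw [chi_false.2 (fun h => hba (St_unique hb h)),
        chi_false.2 (fun h => hba (St_unique hb2 h))]

omit [DecidableEq α] in
lemma DS_one (χ : FreeGroup α → Bool) : DS χ 1 = ∅ := by
  unfold DS
  ext g
  simp

/-- base element of the edge orbit -/
def eb (s : α × Bool) : FreeGroup α := if s.2 then gl s else 1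

lemma DS_step_set (a : α) (s : α × Bool) {g : FreeGroup α} (hg : g ∉ St (li s)) :
    {h | h * gl (li s) ∈ DS (chi a) (gl s * g)} =
      if s.1 = a then insert (eb s) (DS (chi a) g) else DS (chi a) g := by
  have hstep : {h | h * gl (li s) ∈ DS (chi a) (gl s * g)} =
      {h | chi a (h * gl (li s)) ≠ chi a (h * g)} := by
    ext h
    unfold DS
    simp only [Set.mem_ofPred_eq]
    rw [mul_assoc h, ← mul_assoc (gl (li s)), gl_li_mul, one_mul]
  rw [hstep]
  split_ifs with hsa
  · -- the edge orbit agrees
    obtain ⟨c, ε⟩ := s
    simp only at hsa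
    subst hsa
    cases ε
    · -- s = (a, false)
      have h1 : li (c, false) = (c, true) := rfl
      rw [h1] at hg ⊢
      ext h
      simp only [eb, Set.mem_ofPred_eq, Set.mem_insert_iff, DS]
      simp only [Bool.false_eq_true, if_false]
      by_cases hh : h = 1
      · subst hh
        simp only [one_mul, true_or, iff_true]
        rw [chi_true.2 (gl_mem_St.2 rfl), chi_false.2 hg]
        simp
      · have : chi c (h * gl (c, true)) = chi c h := by
          by_contra hne
          rcases chi_edge hne with ⟨-, h3⟩ | ⟨h3, -⟩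
          · exact hh h3
          · simp at h3
        rw [this]
        simp [hh]
    · have h1 : li (c, true) = (c, false) := rfl
      rw [h1] at hg ⊢
      ext h
      simp only [eb, Set.mem_ofPred_eq, Set.mem_insert_iff, DS]
      simp only [if_true]
      by_cases hh : h = gl (c, true)
      · subst hh
        simp only [true_or, iff_true]
        have e1 : gl (c, true) * gl (c, false) = 1 := gl_mul_li (c, true)
        rw [e1, chi_false.2 (one_notMem_St _), chi_true.2 (gl_mul_mem_St.2 hg)]
        simp
      · have : chi c (h * gl (c, false)) = chi c h := by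
          by_contra hne
          rcases chi_edge hne with ⟨h3, -⟩ | ⟨-, h3⟩
          · simp at h3
          · exact hh h3
        rw [this]
        simp [hh]
  · ext h
    unfold DS
    simp only [Set.mem_ofPred_eq]
    have : chi a (h * gl (li s)) = chi a h := by
      by_contra hne
      rcases chi_edge hne with ⟨h3, -⟩ | ⟨h3, -⟩
      · exact hsa (congrArg Prod.fst h3)
      · exact hsa (congrArg Prod.fst h3)
    rw [this]

lemma eb_notMem (a : α) {s : α × Bool} (hs : s.1 = a) {g : FreeGroup α} (hg : g ∉ St (li s)) :
    eb s ∉ DS (chi a) g := by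
  obtain ⟨c, ε⟩ := s
  simp only at hs
  subst hs
  unfold DS
  simp only [Set.mem_ofPred_eq, not_not]
  cases ε
  · show chi c (1 : FreeGroup α) = chi c (1 * g)
    rw [one_mul, chi_false.2 (one_notMem_St _), chi_false.2 hg]
  · show chi c (gl (c, true)) = chi c (gl (c, true) * g)
    rw [chi_true.2 (gl_mem_St.2 rfl), chi_true.2 (gl_mul_mem_St.2 hg)]

omit [DecidableEq α] in
lemma ncard_translate (S : Set (FreeGroup α)) (p : FreeGroup α) :
    {g : FreeGroup α | g * p ∈ S}.ncard = S.ncard := by
  have : S = (fun g => g * p) '' {g : FreeGroup α | g * p ∈ S} := by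
    ext g
    constructor
    · intro hg
      exact ⟨g * p⁻¹, by show g * p⁻¹ * p ∈ S; rwa [inv_mul_cancel_right], by simp⟩
    · rintro ⟨g', hg', rfl⟩
      exact hg'
  conv_rhs => rw [this]
  rw [Set.ncard_image_of_injective _ (mul_left_injective _)]

omit [DecidableEq α] in
lemma finite_of_translate {S : Set (FreeGroup α)} {p : FreeGroup α}
    (h : {g : FreeGroup α | g * p ∈ S}.Finite) : S.Finite := by
  refine (h.image (fun g => g * p)).subset ?_
  intro g hg
  exact ⟨g * p⁻¹, by show g * p⁻¹ * p ∈ S; rwa [inv_mul_cancel_right], by simp⟩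

lemma DS_finite_list (a : α) (l : List (α × Bool)) (hl : FreeGroup.IsReduced l) :
    (DS (chi a) (FreeGroup.mk l)).Finite ∧
      (DS (chi a) (FreeGroup.mk l)).ncard = (l.filter (fun s => s.1 = a)).length := by
  induction l with
  | nil =>
    rw [← FreeGroup.one_eq_mk, DS_one]
    simp
  | cons s l ih =>
    have hl' : FreeGroup.IsReduced l := red_tail hl
    obtain ⟨ih1, ih2⟩ := ih hl'
    have h1 : FreeGroup.mk (s :: l) = gl s * FreeGroup.mk l := by
      rw [gl, mul_mk]; rfl
    have hg : FreeGroup.mk l ∉ St (li s) := by
      rw [mem_St, toWord_mk, hl'.reduce_eq]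
      intro h2
      cases l with
      | nil => simp at h2
      | cons c l =>
        simp at h2
        rw [h2, isReduced_cons_cons] at hl
        have := hl.1 rfl
        simp [li] at this
    have hset := DS_step_set a s hg
    rw [h1]
    constructor
    · apply finite_of_translate (p := gl (li s))
      rw [hset]
      split_ifs
      · exact ih1.insert _
      · exact ih1
    · rw [← ncard_translate _ (gl (li s)), hset]
      split_ifs with hsa
      · rw [Set.ncard_insert_of_notMem (eb_notMem a hsa hg) ih1, ih2]
        simp [hsa]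
      · rw [ih2]
        simp [hsa]

lemma DS_finite (a : α) (g : FreeGroup α) : (DS (chi a) g).Finite := by
  have := (DS_finite_list a g.toWord isReduced_toWord).1
  rwa [mk_toWord] at this

lemma sum_DS [Fintype α] (g : FreeGroup α) : ∑ a, (DS (chi a) g).ncard = norm g := by
  have h1 : ∀ a, (DS (chi a) g).ncard = (g.toWord.filter (fun s => s.1 = a)).length := by
    intro a
    have := (DS_finite_list a g.toWord isReduced_toWord).2
    rwa [mk_toWord] at this
  simp only [h1]
  rw [FreeGroup.norm]
  generalize g.toWord = l
  induction l with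
  | nil => simp
  | cons s l ih =>
    have : ∀ a, ((s :: l).filter (fun s => s.1 = a)).length =
        (if s.1 = a then 1 else 0) + (l.filter (fun s => s.1 = a)).length := by
      intro a
      by_cases h : s.1 = a <;> simp [h, add_comm]
    simp only [this, Finset.sum_add_distrib, ih, Finset.sum_ite_eq, Finset.mem_univ, if_true,
      List.length_cons]
    ring

/-- colouring pulled back by an automorphism -/
def chiA (φ : FreeGroup α ≃* FreeGroup α) (a : α) (z : FreeGroup α) : Bool := chi a (φ z)

lemma DS_chiA (φ : FreeGroup α ≃* FreeGroup α) (a : α) (g : FreeGroup α) :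
    DS (chiA φ a) g = φ ⁻¹' (DS (chi a) (φ g)) := by
  ext h
  simp [DS, chiA]

lemma DS_chiA_finite (φ : FreeGroup α ≃* FreeGroup α) (a : α) (g : FreeGroup α) :
    (DS (chiA φ a) g).Finite := by
  rw [DS_chiA]
  exact (DS_finite a _).preimage (φ.injective.injOn)

lemma DS_chiA_ncard (φ : FreeGroup α ≃* FreeGroup α) (a : α) (g : FreeGroup α) :
    (DS (chiA φ a) g).ncard = (DS (chi a) (φ g)).ncard := by
  rw [DS_chiA]
  exact Set.ncard_preimage_of_injective_subset_range φ.injective
    (by rw [Set.range_eq_univ.2 φ.surjective]; exact Set.subset_univ _)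

lemma sum_DS_chiA [Fintype α] (φ : FreeGroup α ≃* FreeGroup α) (g : FreeGroup α) :
    ∑ a, (DS (chiA φ a) g).ncard = norm (φ g) := by
  simp only [DS_chiA_ncard]
  exact sum_DS (φ g)

lemma chiA_nested (φ : FreeGroup α ≃* FreeGroup α) (a : α) : Nested (chiA φ a) := by
  intro k
  obtain ⟨P, Q, h⟩ := St_nested (a, true) (φ k)
  classical
  refine ⟨decide P, decide Q, ?_⟩
  rintro y ⟨h1, h2⟩
  apply h (φ y)
  constructor
  · by_cases hP : P
    · simp only [hP, decide_true] at h1
      have := chi_true.1 h1
      simp [hP, this]
    · simp only [hP, decide_false] at h1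
      have := chi_false.1 h1
      simp [hP, this]
  · rw [show (φ k)⁻¹ * φ y = φ (k⁻¹ * y) by simp]
    by_cases hP : Q
    · simp only [hP, decide_true] at h2
      have := chi_true.1 h2
      simp only [hP, iff_true]
      exact this
    · simp only [hP, decide_false] at h2
      have := chi_false.1 h2
      simp only [hP, iff_false]
      exact this

lemma chiA_Bdd [Finite α] (φ : FreeGroup α ≃* FreeGroup α) (a : α) : ∃ R, Bdd (chiA φ a) R := by
  have h1 : (⋃ t : α × Bool, DS (chiA φ a) (gl t)).Finite :=
    Set.finite_iUnion (fun t => DS_chiA_finite φ a _)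
  obtain ⟨R, hR⟩ := (h1.image FreeGroup.norm).bddAbove
  refine ⟨R, ?_⟩
  intro h t hlt
  by_contra hne
  have : norm h ≤ R := hR ⟨h, Set.mem_iUnion.2 ⟨t, fun h => hne h.symm⟩, rfl⟩
  omega

end Run7.h290
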