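import Pool.Agent.Run7.h290.Colour

/-!
The locality lemma: a nested colouring with finite boundary does not see filling words.
-/

namespace Run7.h290

open FreeGroup

variable {α : Type*} [DecidableEq α] {χ : FreeGroup α → Bool} {R : ℕ}

omit [DecidableEq α] in
lemma Ess_of_infinite {S : Set (FreeGroup α)} (h : ¬ Mixed χ S) {b : Bool}
    (hb : {h | h ∈ S ∧ χ h = b}.Infinite) : Ess χ S b := by
  obtain ⟨a, ha⟩ := Ess_of_not_mixed h
  have : a = b := by
    by_contra hne
    apply hb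
    refine Set.Finite.subset ha ?_
    rintro x ⟨hx1, hx2⟩
    refine ⟨hx1, ?_⟩
    rw [hx2]
    exact fun h => hne h.symm
  rwa [this] at ha

/-- existence of a vertex at which both colours occur in unmixed directions avoiding a letter -/
lemma exists_splitting_vertex [Finite α] (hB : Bdd χ R) (k : ℕ) :
    ∀ (h : FreeGroup α) (t : α × Bool), R ≤ norm h + k → h⁻¹ ∉ St t →
    Mixed χ (H h t) → Mixed χ (H h t)ᶜ →
    ∃ (v : FreeGroup α) (e : α × Bool),
      ∀ b : Bool, (∃ s, s ≠ e ∧ Ess χ (H v s) b) ∧ (∀ s, s ≠ e → ¬ Mixed χ (H v s)) := by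
  induction k with
  | zero =>
    intro h t hR ht hm _
    exact absurd hm (not_mixed_far hB ht (by omega))
  | succ k ih =>
    intro h t hR ht hm hmc
    have hn : norm (h * gl t) = norm h + 1 := by
      have := norm_ray ht 1
      rw [rp_succ, rp_zero, one_mul] at this
      exact this
    have h2 : (h * gl t)⁻¹ ∈ St (li t) := by
      rw [mul_inv_rev, ← gl_li, mem_St, toWord_gl_mul]
      · rfl
      · rw [li_li]; exact ht
    by_cases hex : ∃ s, s ≠ li t ∧ Mixed χ (H (h * gl t) s)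
    · obtain ⟨s, hs, hms⟩ := hex
      apply ih (h * gl t) s (by omega) _ hms
      · exact hmc.mono (Set.compl_subset_compl.2 (H_mono hs))
      · intro h3
        exact hs (St_unique h3 h2)
    · push Not at hex
      refine ⟨h * gl t, li t, fun b => ⟨?_, hex⟩⟩
      by_contra hno
      push Not at hno
      apply hm b
      have hfin : ∀ s, s ≠ li t → {x | x ∈ H (h * gl t) s ∧ χ x = b}.Finite := by
        intro s hs
        by_contra hinf
        exact hno s hs (Ess_of_infinite (hex s hs) hinf)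
      have hfin2 : (⋃ s : {s // s ≠ li t}, {x | x ∈ H (h * gl t) s.1 ∧ χ x = b}).Finite :=
        Set.finite_iUnion (fun s => hfin s.1 s.2)
      refine Set.Finite.subset (hfin2.union (Set.finite_singleton (h * gl t))) ?_
      rintro x ⟨hx1, hx2⟩
      rcases mem_H_cases (h * gl t) x with hx | ⟨s, hs⟩
      · right; exact hx
      · left
        rw [Set.mem_iUnion]
        refine ⟨⟨s, ?_⟩, hs, hx2⟩
        rintro rfl
        rw [← H_compl] at hs
        exact hs hx1

/-- Cut form of: the turn graph of the window `[j, j+L)` of `x` is connected without cut vertex. -/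
def TurnFill (x : ℕ → α × Bool) (j L : ℕ) : Prop :=
  ∀ (e : α × Bool) (D : α × Bool → Prop), (∃ t, t ≠ e ∧ D t) → (∃ t, t ≠ e ∧ ¬ D t) →
    ∃ i, j ≤ i ∧ i + 1 < j + L ∧ li (x i) ≠ e ∧ x (i+1) ≠ e ∧ (D (li (x i)) ↔ ¬ D (x (i+1)))

/-- a reduced path -/
structure Path (v : ℕ → FreeGroup α) (x : ℕ → α × Bool) : Prop where
  step : ∀ i, v (i+1) = v i * gl (x i)
  red : ∀ i, x (i+1) ≠ li (x i)

lemma Path.anti {v : ℕ → FreeGroup α} {x : ℕ → α × Bool} (hp : Path v x) {i k : ℕ}
    (h : i ≤ k) : H (v k) (x k) ⊆ H (v i) (x i) := by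
  have : Antitone (fun i => H (v i) (x i)) := by
    apply antitone_nat_of_succ_le
    intro n
    show H (v (n+1)) (x (n+1)) ⊆ H (v n) (x n)
    rw [hp.step]
    exact H_mono (hp.red n)
  exact this h

theorem localA [Finite α] (hN : Nested χ) (hB : Bdd χ R) {v : ℕ → FreeGroup α}
    {x : ℕ → α × Bool} (hp : Path v x) {j L : ℕ} (hL : 1 ≤ L) (hf : TurnFill x j L)
    (h1 : Mixed χ (H (v j) (x j))ᶜ) (h2 : Mixed χ (H (v (j+L-1)) (x (j+L-1)))) : False := by
  have h2' : Mixed χ (H (v j) (x j)) := h2.mono (hp.anti (by omega))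
  -- an outward direction with both sides mixed
  have hout : ∃ (h : FreeGroup α) (t : α × Bool), h⁻¹ ∉ St t ∧ Mixed χ (H h t) ∧
      Mixed χ (H h t)ᶜ := by
    by_cases hc : (v j)⁻¹ ∈ St (x j)
    · refine ⟨v j * gl (x j), li (x j), ?_, ?_, ?_⟩
      · rw [mul_inv_rev, ← gl_li]
        exact mem_St_iff.1 hc
      · rw [← H_compl]; exact h1
      · rw [← H_compl, compl_compl]; exact h2'
    · exact ⟨v j, x j, hc, h2', h1⟩
  obtain ⟨h, t, ht, hm, hmc⟩ := hout
  obtain ⟨w, e, hw⟩ := exists_splitting_vertex hB R h t (by omega) ht hm hmc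
  have hnm := (hw true).2
  obtain ⟨s1, hs1e, hs1⟩ := (hw true).1
  obtain ⟨s2, hs2e, hs2⟩ := (hw false).1
  obtain ⟨i, hi1, hi2, hie1, hie2, hiff⟩ := hf e (fun s => Ess χ (H w s) true)
    ⟨s1, hs1e, hs1⟩ ⟨s2, hs2e, by
      intro h3
      have := Ess_unique (H_infinite w s2) h3 hs2
      simp at this⟩
  -- the vertex on the path
  set q := v (i+1) with hq
  have hq1 : H q (li (x i)) = (H (v i) (x i))ᶜ := by
    rw [H_compl, hq, hp.step]
  have hmix1 : Mixed χ (H q (li (x i))) := by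
    rw [hq1]
    exact h1.mono (Set.compl_subset_compl.2 (hp.anti hi1))
  have hmix2 : Mixed χ (H q (x (i+1))) := h2.mono (hp.anti (by omega))
  -- colours of the two directions
  have hcol : ∀ b : Bool, ∃ s, Mixed χ (H q s) ∧ Ess χ (H w s) b := by
    have key : ∀ s, s ≠ e → ¬ Ess χ (H w s) true → Ess χ (H w s) false := by
      intro s hs hns
      obtain ⟨b, hb⟩ := Ess_of_not_mixed (hnm s hs)
      cases b
      · exact hb
      · exact absurd hb hns
    intro b
    by_cases hD : Ess χ (H w (li (x i))) true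
    · have hD' := hiff.1 hD
      cases b
      · exact ⟨_, hmix2, key _ hie2 hD'⟩
      · exact ⟨_, hmix1, hD⟩
    · have hD' : Ess χ (H w (x (i+1))) true := by
        by_contra hno
        exact hD (hiff.2 hno)
      cases b
      · exact ⟨_, hmix1, key _ hie1 hD⟩
      · exact ⟨_, hmix2, hD'⟩
  obtain ⟨a, b, hab⟩ := hN (w * q⁻¹)
  obtain ⟨s, hsm, hse⟩ := hcol a
  -- infinitely many points of H w s have translated colour b
  have hinf : {y | y ∈ H w s ∧ χ ((w * q⁻¹)⁻¹ * y) = b}.Infinite := by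
    have himg : (fun z => w * q⁻¹ * z) '' {z | z ∈ H q s ∧ χ z = b} ⊆
        {y | y ∈ H w s ∧ χ ((w * q⁻¹)⁻¹ * y) = b} := by
      rintro _ ⟨z, ⟨hz1, hz2⟩, rfl⟩
      refine ⟨?_, ?_⟩
      · have := (mul_mem_H (k := w * q⁻¹) (g := q) (h := z) (t := s)).2 hz1
        rwa [inv_mul_cancel_right] at this
      · show χ ((w * q⁻¹)⁻¹ * (w * q⁻¹ * z)) = b
        rw [inv_mul_cancel_left]; exact hz2
    refine Set.Infinite.mono himg ?_
    exact (hsm b).image (fun z1 _ z2 _ h => mul_left_cancel h)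
  obtain ⟨y, hy1, hy2⟩ := (hinf.sdiff hse).nonempty
  apply hab y
  refine ⟨?_, hy1.2⟩
  by_contra hne
  exact hy2 ⟨hy1.1, hne⟩

end Run7.h290
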