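import Pool.Agent.Run7.h290.Local

/-!
Transitions of a colouring along a path.
-/

namespace Run7.h290

open FreeGroup

variable {α : Type*} [DecidableEq α] {χ : FreeGroup α → Bool} {R : ℕ}

/-- transition of type `m` at the start of the path -/
def Tr0 (χ : FreeGroup α → Bool) (v : ℕ → FreeGroup α) (x : ℕ → α × Bool) (m : ℕ) : Prop :=
  ∃ b : Bool, Ess χ (H (v 0) (x 0))ᶜ b ∧ Ess χ (H (v m) (x m)) (!b) ∧
    (m ≠ 0 → Mixed χ (H (v 1) (x 1))ᶜ ∧ Mixed χ (H (v (m-1)) (x (m-1))))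

/-- transition of type `m` at position `j` of the path -/
def Tr (χ : FreeGroup α → Bool) (v : ℕ → FreeGroup α) (x : ℕ → α × Bool) (j m : ℕ) : Prop :=
  Tr0 χ (fun i => v (j + i)) (fun i => x (j + i)) m

variable {v : ℕ → FreeGroup α} {x : ℕ → α × Bool}

lemma Path.notMem (hp : Path v x) {i j : ℕ} (h : i ≤ j) : v i ∉ H (v j) (x j) :=
  fun h2 => self_notMem_H (v i) (x i) (hp.anti h h2)

lemma Path.mem (hp : Path v x) {i j : ℕ} (h : j < i) : v i ∈ H (v j) (x j) := by
  obtain ⟨k, rfl⟩ : ∃ k, i = k + 1 := ⟨i - 1, by omega⟩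
  apply hp.anti (show j ≤ k by omega)
  rw [hp.step k]
  exact next_mem_H _ _

lemma Path.colour (hp : Path v x) (hB : Bdd χ R) {a b : ℕ} (hab : a ≤ b)
    (h : ∀ i, a ≤ i → i < b → R < norm (v i)) : χ (v b) = χ (v a) := by
  induction b, hab using Nat.le_induction with
  | base => rfl
  | succ b hab ih =>
    rw [hp.step b, hB _ _ (h b hab (by omega)), ih (fun i h1 h2 => h i h1 (by omega))]

lemma Path.norm_le (hp : Path v x) (i : ℕ) : norm (v i) ≤ norm (v (i+1)) + 1 := by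
  have h1 : v i = v (i+1) * gl (li (x i)) := by
    rw [hp.step i, mul_assoc, gl_mul_li, mul_one]
  calc norm (v i) = norm (v (i+1) * gl (li (x i))) := by rw [← h1]
    _ ≤ norm (v (i+1)) + norm (gl (li (x i))) := norm_mul_le _ _
    _ = norm (v (i+1)) + 1 := by simp [FreeGroup.norm, toWord_gl]

lemma Path.norm_le' (hp : Path v x) (i : ℕ) : norm (v 0) ≤ norm (v i) + i := by
  induction i with
  | zero => simp
  | succ i ih => have := hp.norm_le i; omega

omit [DecidableEq α] in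
lemma Path.shift (hp : Path v x) (j : ℕ) :
    Path (fun i => v (j + i)) (fun i => x (j + i)) :=
  ⟨fun i => hp.step (j+i), fun i => hp.red (j+i)⟩

section nontriv
variable [Nontrivial α]

lemma Tr0.norm_le (hp : Path v x) (hB : Bdd χ R) {m : ℕ} (h : Tr0 χ v x m) :
    norm (v 0) ≤ R + m + 1 := by
  by_contra hlt
  push Not at hlt
  obtain ⟨b, h1, h2, -⟩ := h
  have e1 : χ (v 0) = b := Ess_compl_eq hB h1 (hp.notMem le_rfl) (by omega)
  have e2 : χ (v (m+1)) = !b := Ess_eq hB h2 (hp.mem (Nat.lt_succ_self m)) (by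
    have := hp.norm_le' (m+1); omega)
  have e3 : χ (v (m+1)) = χ (v 0) := hp.colour hB (Nat.zero_le _) (by
    intro i _ hi
    have := hp.norm_le' i; omega)
  rw [e1, e2] at e3
  simp at e3

lemma Tr_unique (hp : Path v x) {j m j' m' : ℕ} (h : Tr χ v x j m) (h' : Tr χ v x j' m') :
    j = j' ∧ m = m' := by
  have key : ∀ {j m j' m' : ℕ}, Tr χ v x j m → Tr χ v x j' m' → ¬ j < j' := by
    intro j m j' m' h h' hlt
    obtain ⟨b, h1, h2, h3⟩ := h
    obtain ⟨b', h1', h2', h3'⟩ := h'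
    simp only [Nat.add_zero] at h1 h1'
    have hB1 : Ess χ (H (v (j+1)) (x (j+1)))ᶜ b' :=
      h1'.mono (Set.compl_subset_compl.2 (hp.anti (by omega)))
    have hm : m = 0 := by
      by_contra hm
      exact not_mixed_of_Ess hB1 (h3 hm).1
    subst hm
    simp only [Nat.add_zero] at h2
    have hbb : b = b' := by
      apply Ess_unique (S := (H (v j) (x j))ᶜ) _ h1
      · exact hB1.mono (Set.compl_subset_compl.2 (hp.anti (by omega)))
      · rw [H_compl]; exact H_infinite _ _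
    subst hbb
    have hside := side_infinite (v j) (x j) (x (j+1))
    rw [← hp.step] at hside
    have e1 : Ess χ (H (v j) (x j) ∩ (H (v (j+1)) (x (j+1)))ᶜ) (!b) :=
      h2.mono Set.inter_subset_left
    have e2 : Ess χ (H (v j) (x j) ∩ (H (v (j+1)) (x (j+1)))ᶜ) b :=
      hB1.mono Set.inter_subset_right
    have := Ess_unique hside e1 e2
    simp at this
  have hj : j = j' := le_antisymm (not_lt.1 (key h' h)) (not_lt.1 (key h h'))
  refine ⟨hj, ?_⟩
  subst hj
  have key2 : ∀ {m m' : ℕ}, Tr χ v x j m → Tr χ v x j m' → ¬ m < m' := by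
    intro m m' h h' hlt
    obtain ⟨b, h1, h2, h3⟩ := h
    obtain ⟨b', h1', h2', h3'⟩ := h'
    have h4 := (h3' (by omega)).2
    exact not_mixed_of_Ess h2 (h4.mono (hp.anti (by omega)))
  exact le_antisymm (not_lt.1 (key2 h' h)) (not_lt.1 (key2 h h'))

lemma colours_of_Tr (hp : Path v x) (hB : Bdd χ R) {j m N : ℕ} (h : Tr χ v x j m)
    (hN : j + m < N) (h0 : R < norm (v 0)) (hv : R < norm (v N)) : χ (v 0) ≠ χ (v N) := by
  obtain ⟨b, h1, h2, -⟩ := h
  simp only [Nat.add_zero] at h1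
  have e1 : χ (v 0) = b := Ess_compl_eq hB h1 (hp.notMem (Nat.zero_le _)) h0
  have e2 : χ (v N) = !b := Ess_eq hB h2 (hp.mem hN) hv
  rw [e1, e2]
  simp

omit [Nontrivial α] in
/-- an edge with both sides mixed starts inside the ball -/
lemma far_edge (hB : Bdd χ R) {h : FreeGroup α} {t : α × Bool} (hR : R < norm h)
    (h1 : Mixed χ (H h t)) (h2 : Mixed χ (H h t)ᶜ) : False := by
  by_cases hc : h⁻¹ ∈ St t
  · have h3 : (h * gl t)⁻¹ ∉ St (li t) := by
      rw [mul_inv_rev, ← gl_li]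
      exact mem_St_iff.1 hc
    have h4 : norm h ≤ norm (h * gl t) + 1 := by
      calc norm h = norm ((h * gl t) * gl (li t)) := by rw [mul_assoc, gl_mul_li, mul_one]
        _ ≤ norm (h * gl t) + norm (gl (li t)) := norm_mul_le _ _
        _ = norm (h * gl t) + 1 := by simp [FreeGroup.norm, toWord_gl]
    rw [H_compl] at h2
    exact not_mixed_far hB h3 (by omega) h2
  · exact not_mixed_far hB hc hR.le h1

omit [Nontrivial α] in
lemma start_unmixed (hp : Path v x) (hB : Bdd χ R) {N : ℕ} (hN : 0 < N)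
    (h0 : R < norm (v 0)) (hc : χ (v 0) ≠ χ (v N)) : ¬ Mixed χ (H (v 0) (x 0))ᶜ := by
  intro hm
  by_cases hin : (v 0)⁻¹ ∈ St (x 0)
  · have h3 : (v 0 * gl (x 0))⁻¹ ∉ St (li (x 0)) := by
      rw [mul_inv_rev, ← gl_li]
      exact mem_St_iff.1 hin
    have h4 := hp.norm_le 0
    rw [hp.step 0] at h4
    rw [H_compl] at hm
    exact not_mixed_far hB h3 (by omega) hm
  · have e1 := const_on_cyl hB hin h0.le (v N) (hp.mem hN)
    rw [hB _ _ h0] at e1
    exact hc e1.symm

omit [Nontrivial α] in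
lemma end_unmixed (hp : Path v x) (hB : Bdd χ R) {N : ℕ} (hN : 0 < N)
    (hv : R < norm (v N)) (hc : χ (v 0) ≠ χ (v N)) :
    ¬ Mixed χ (H (v (N-1)) (x (N-1))) := by
  intro hm
  obtain ⟨k, rfl⟩ : ∃ k, N = k + 1 := ⟨N - 1, by omega⟩
  simp only [Nat.add_sub_cancel] at hm
  have hvk : v k = v (k+1) * gl (li (x k)) := by
    rw [hp.step k, mul_assoc, gl_mul_li, mul_one]
  have hset : (H (v (k+1)) (li (x k)))ᶜ = H (v k) (x k) := by
    rw [H_compl, li_li, ← hvk]
  by_cases hin : (v (k+1))⁻¹ ∈ St (li (x k))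
  · have h3 : (v k)⁻¹ ∉ St (x k) := by
      have := mem_St_iff.1 hin
      rw [li_li] at this
      rw [hvk, mul_inv_rev, ← gl_li, li_li]
      exact this
    have h4 : norm (v (k+1)) ≤ norm (v k) + 1 := by
      rw [hp.step k]
      calc _ ≤ norm (v k) + norm (gl (x k)) := norm_mul_le _ _
        _ = norm (v k) + 1 := by simp [FreeGroup.norm, toWord_gl]
    exact not_mixed_far hB h3 (by omega) hm
  · have hmem : v 0 ∈ H (v (k+1)) (li (x k)) := by
      have h5 : v 0 ∈ (H (v k) (x k))ᶜ := hp.notMem (Nat.zero_le _)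
      rw [← hset, compl_compl] at h5
      exact h5
    have e1 := const_on_cyl hB hin hv.le _ hmem
    rw [hB _ _ hv] at e1
    exact hc e1

omit [Nontrivial α] in
lemma exists_Tr (hp : Path v x) (hB : Bdd χ R) {N : ℕ} (hN : 0 < N)
    (h0 : R < norm (v 0)) (hv : R < norm (v N))
    (hc : χ (v 0) ≠ χ (v N)) (hEq : ∀ j b, j ≤ N → Ess χ (H (v j) (x j))ᶜ b → χ (v 0) = b)
    (hEq' : ∀ j b, j < N → Ess χ (H (v j) (x j)) b → χ (v N) = b) :
    ∃ j m, j + m < N ∧ Tr χ v x j m := by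
  classical
  have hB0 := start_unmixed hp hB hN h0 hc
  have hA0 := end_unmixed hp hB hN hv hc
  have hex : ∃ j, ¬ Mixed χ (H (v j) (x j)) := ⟨N-1, hA0⟩
  set j1 := Nat.find hex with hj1
  have hj1A : ¬ Mixed χ (H (v j1) (x j1)) := Nat.find_spec hex
  have hj1N : j1 ≤ N - 1 := Nat.find_min' hex hA0
  set j0 := Nat.findGreatest (fun j => ¬ Mixed χ (H (v j) (x j))ᶜ) j1 with hj0
  have hj0le : j0 ≤ j1 := Nat.findGreatest_le _
  have hj0B : ¬ Mixed χ (H (v j0) (x j0))ᶜ :=
    Nat.findGreatest_spec (P := fun j => ¬ Mixed χ (H (v j) (x j))ᶜ) (Nat.zero_le j1) hB0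
  obtain ⟨b, hb⟩ := Ess_of_not_mixed hj0B
  obtain ⟨b', hb'⟩ := Ess_of_not_mixed hj1A
  have e1 : χ (v 0) = b := hEq j0 b (by omega) hb
  have e2 : χ (v N) = b' := hEq' j1 b' (by omega) hb'
  have hbb : b' = !b := by
    rw [e1, e2] at hc
    cases b <;> cases b' <;> simp_all
  refine ⟨j0, j1 - j0, by omega, b, by simpa using hb, ?_, ?_⟩
  · have : j0 + (j1 - j0) = j1 := by omega
    show Ess χ (H (v (j0 + (j1 - j0))) (x (j0 + (j1 - j0)))) (!b)
    rw [this, ← hbb]; exact hb'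
  · intro hne
    constructor
    · by_contra hno
      have := Nat.findGreatest_is_greatest (P := fun j => ¬ Mixed χ (H (v j) (x j))ᶜ)
        (n := j1) (k := j0+1) (by rw [← hj0]; omega) (by omega)
      exact this hno
    · have h5 : j0 + (j1 - j0 - 1) = j1 - 1 := by omega
      show Mixed χ (H (v (j0 + (j1 - j0 - 1))) (x (j0 + (j1 - j0 - 1))))
      rw [h5]
      by_contra hno
      have := Nat.find_min hex (m := j1 - 1) (by rw [← hj1]; omega)
      exact this hno

lemma exists_Tr' (hp : Path v x) (hB : Bdd χ R) {N : ℕ} (hN : 0 < N)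
    (h0 : R < norm (v 0)) (hv : R < norm (v N)) (hc : χ (v 0) ≠ χ (v N)) :
    ∃ j m, j + m < N ∧ Tr χ v x j m := by
  refine exists_Tr hp hB hN h0 hv hc ?_ ?_
  · intro j b _ hb
    exact Ess_compl_eq hB hb (hp.notMem (Nat.zero_le _)) h0
  · intro j b hj hb
    exact Ess_eq hB hb (hp.mem hj) hv

end nontriv

/-- no transition contains a filling word in its interior -/
lemma not_Tr_of_fill [Finite α] (hNe : Nested χ) (hp : Path v x) (hB : Bdd χ R) {j m a L : ℕ}
    (hL : 1 ≤ L) (ha : j + 1 ≤ a) (hb : a + L ≤ j + m) (hf : TurnFill x a L) :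
    ¬ Tr χ v x j m := by
  rintro ⟨b, h1, h2, h3⟩
  obtain ⟨h4, h5⟩ := h3 (by omega)
  refine localA hNe hB hp hL hf ?_ ?_
  · exact h4.mono (Set.compl_subset_compl.2 (hp.anti (by omega)))
  · exact h5.mono (hp.anti (by omega))

end Run7.h290
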