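import Pool.Agent.Run7.h290.Formula

/-!
Periodic sequences attached to cyclic words.
-/

namespace Run7.h290

open FreeGroup

variable {α : Type*}

/-- the periodic sequence of letters of a cyclic word -/
def xs (d : α × Bool) (u : List (α × Bool)) (i : ℕ) : α × Bool := u.getD (i % u.length) d

/-- windows of the periodic sequence -/
def win (d : α × Bool) (u : List (α × Bool)) (i l : ℕ) : List (α × Bool) :=
  (List.range l).map (fun k => xs d u (i + k))

lemma xs_periodic (d : α × Bool) (u : List (α × Bool)) (i : ℕ) :
    xs d u (u.length + i) = xs d u i := by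
  simp [xs]

lemma xs_add_mul (d : α × Bool) (u : List (α × Bool)) (i k : ℕ) :
    xs d u (i + k * u.length) = xs d u i := by
  simp [xs]

lemma xs_mod (d : α × Bool) (u : List (α × Bool)) (i : ℕ) :
    xs d u (i % u.length) = xs d u i := by
  simp [xs]

lemma map_xs (d : α × Bool) (u : List (α × Bool)) :
    (List.range u.length).map (xs d u) = u := by
  apply List.ext_getElem
  · simp
  · intro i h1 h2
    simp only [List.getElem_map, List.getElem_range, xs]
    rw [Nat.mod_eq_of_lt h2, List.getD_eq_getElem _ _ h2]

lemma flatten_xs (d : α × Bool) (u : List (α × Bool)) (k : ℕ) :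
    (List.replicate k u).flatten = (List.range (k * u.length)).map (xs d u) := by
  induction k with
  | zero => simp
  | succ k ih =>
    rw [List.replicate_succ', List.flatten_append, ih, add_mul, one_mul, List.range_add,
      List.map_append, List.map_map]
    congr 1
    simp only [List.flatten_cons, List.flatten_nil, List.append_nil]
    conv_lhs => rw [← map_xs d u]
    apply List.map_congr_left
    intro i _
    simp only [Function.comp]
    rw [add_comm, xs_add_mul]

lemma win_length (d : α × Bool) (u : List (α × Bool)) (i l : ℕ) :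
    (win d u i l).length = l := by simp [win]

lemma win_mod (d : α × Bool) (u : List (α × Bool)) (i l : ℕ) :
    win d u (i % u.length) l = win d u i l := by
  unfold win
  apply List.map_congr_left
  intro k _
  rw [← xs_mod d u (i % u.length + k), ← xs_mod d u (i + k), Nat.mod_add_mod]

lemma P_xs (d : α × Bool) (u : List (α × Bool)) : P (xs d u) u.length = FreeGroup.mk u := by
  unfold P
  rw [map_xs]

lemma redSeq_xs (d : α × Bool) {u : List (α × Bool)} (hu : u ≠ [])
    (hc : FreeGroup.IsCyclicallyReduced u) : RedSeq (xs d u) := by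
  intro i heq
  have hn : 1 ≤ u.length := List.length_pos_of_ne_nil hu
  have h1 := (hc.flatten_replicate (i + 2)).isReduced
  rw [flatten_xs d] at h1
  unfold FreeGroup.IsReduced at h1
  rw [List.isChain_iff_getElem] at h1
  have hlen : i + 1 < ((List.range ((i + 2) * u.length)).map (xs d u)).length := by
    simp only [List.length_map, List.length_range]
    calc i + 1 < i + 2 := by omega
      _ = (i+2) * 1 := by ring
      _ ≤ (i + 2) * u.length := Nat.mul_le_mul_left _ hn
  have h2 := h1 i (by omega)
  simp only [List.getElem_map, List.getElem_range] at h2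
  rw [heq] at h2
  have := h2 rfl
  unfold li at this
  simp at this

lemma cycFactor_iff (d : α × Bool) {u : List (α × Bool)} (hu : u ≠ []) (w : List (α × Bool)) :
    CycFactor w u ↔ ∃ i, w = win d u i w.length := by
  have hn : 1 ≤ u.length := List.length_pos_of_ne_nil hu
  constructor
  · rintro ⟨k, s, t, h⟩
    rw [flatten_xs d] at h
    refine ⟨s.length, ?_⟩
    apply List.ext_getElem
    · simp [win]
    · intro i h1 h2
      simp only [win, List.getElem_map, List.getElem_range]
      have h3 : s.length + i < ((List.range (k * u.length)).map (xs d u)).length := by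
        rw [← h]; simp only [List.length_append]; omega
      have h4 : ((List.range (k * u.length)).map (xs d u))[s.length + i] = xs d u (s.length + i) := by
        simp
      rw [← h4]
      simp only [← h]
      rw [List.getElem_append_left (by simp only [List.length_append]; omega),
        List.getElem_append_right (by omega)]
      simp
  · rintro ⟨i, hi⟩
    refine ⟨i + w.length, ?_⟩
    rw [flatten_xs d]
    have h1 : i + w.length ≤ (i + w.length) * u.length := Nat.le_mul_of_pos_right _ (by omega)
    obtain ⟨c, hc⟩ : ∃ c, (i + w.length) * u.length = i + w.length + c := ⟨_, (Nat.add_sub_of_le h1).symm⟩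
    rw [hc, List.range_add, List.range_add, List.map_append, List.map_append]
    conv_lhs => rw [hi]
    refine ⟨(List.range i).map (xs d u), ((List.range c).map (fun x => i + w.length + x)).map (xs d u), ?_⟩
    simp only [win, List.map_map]
    rfl

lemma xs_rotate (d : α × Bool) {u : List (α × Bool)} (hu : u ≠ []) (i k : ℕ) :
    xs d (u.rotate i) k = xs d u (i + k) := by
  have hn : 1 ≤ u.length := List.length_pos_of_ne_nil hu
  unfold xs
  rw [List.length_rotate]
  have h1 : k % u.length < (u.rotate i).length := by
    rw [List.length_rotate]; exact Nat.mod_lt _ (by omega)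
  rw [List.getD_eq_getElem _ _ h1, List.getElem_rotate,
    List.getD_eq_getElem _ _ (Nat.mod_lt _ (by omega))]
  congr 1
  rw [Nat.mod_add_mod, add_comm]

lemma occ_prefix_iff (d : α × Bool) {u : List (α × Bool)} (hu : u ≠ []) (w : List (α × Bool))
    (i : ℕ) : w <+: (List.replicate w.length (u.rotate i)).flatten ↔ w = win d u i w.length := by
  have hn : 1 ≤ u.length := List.length_pos_of_ne_nil hu
  rw [flatten_xs d, List.prefix_iff_eq_take, ← List.map_take, List.take_range, List.length_rotate,
    min_eq_left (Nat.le_mul_of_pos_right _ (by omega))]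
  unfold win
  have : xs d (u.rotate i) = fun k => xs d u (i + k) := funext (xs_rotate d hu i)
  rw [this]

lemma occ_eq [DecidableEq α] (d : α × Bool) {u : List (α × Bool)} (hu : u ≠ [])
    (w : List (α × Bool)) :
    occ w u = ((Finset.range u.length).filter (fun i => win d u i w.length = w)).card := by
  unfold occ
  rw [← Set.ncard_coe_finset]
  congr 1
  ext i
  rw [Finset.mem_coe, Finset.mem_filter, Finset.mem_range]
  show (i < u.length ∧ w <+: (List.replicate w.length (u.rotate i)).flatten) ↔ _
  rw [occ_prefix_iff d hu]
  exact and_congr_right (fun _ => eq_comm)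

lemma Filling.turnFill {x : ℕ → α × Bool} {j L : ℕ}
    (h : Filling ((List.range L).map (fun k => x (j + k)))) : TurnFill x j L := by
  intro e D ⟨t, hte, hDt⟩ ⟨t', hte', hDt'⟩
  have hconn := h.2 e
  obtain ⟨p⟩ := hconn.preconnected ⟨t, hte⟩ ⟨t', hte'⟩
  obtain ⟨dd, -, h1, h2⟩ := p.exists_boundary_dart {z | D z.1} hDt hDt'
  have hadj := dd.adj
  have key : ∀ (p q : α × Bool), p ≠ e → q ≠ e → (D p ↔ ¬ D q) →
      [(p.1, !p.2), q] <:+: (List.range L).map (fun k => x (j + k)) →
      ∃ i, j ≤ i ∧ i + 1 < j + L ∧ li (x i) ≠ e ∧ x (i+1) ≠ e ∧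
        (D (li (x i)) ↔ ¬ D (x (i+1))) := by
    rintro p q hp hq hD ⟨s, t, hst⟩
    have hlen : s.length + 2 + t.length = L := by
      have := congrArg List.length hst
      simp at this; omega
    have e1 : x (j + s.length) = (p.1, !p.2) := by
      have h3 : ((List.range L).map (fun k => x (j + k)))[s.length]'(by simp; omega) =
          x (j + s.length) := by simp
      rw [← h3]
      simp only [← hst]
      rw [List.getElem_append_left (by simp), List.getElem_append_right (by omega)]
      simp
    have e2 : x (j + s.length + 1) = q := by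
      have h3 : ((List.range L).map (fun k => x (j + k)))[s.length + 1]'(by simp; omega) =
          x (j + (s.length + 1)) := by simp
      rw [add_assoc, ← h3]
      simp only [← hst]
      rw [List.getElem_append_left (by simp), List.getElem_append_right (by omega)]
      simp
    have e3 : li (x (j + s.length)) = p := by
      rw [e1]; simp [li]
    refine ⟨j + s.length, by omega, by omega, ?_, ?_, ?_⟩
    · rw [e3]; exact hp
    · rw [e2]; exact hq
    · rw [e3, e2]; exact hD
  have h1' : D dd.fst.1 := h1
  have h2' : ¬ D dd.snd.1 := h2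
  have hadj' : (turnGraph ((List.range L).map (fun k => x (j + k)))).Adj dd.fst.1 dd.snd.1 := hadj
  unfold turnGraph at hadj'
  rw [SimpleGraph.fromRel_adj] at hadj'
  rcases hadj'.2 with hh | hh
  · exact key _ _ dd.fst.2 dd.snd.2 (by simp [h1', h2']) hh
  · exact key _ _ dd.snd.2 dd.fst.2 (by simp [h1', h2']) hh

lemma Filling.length_pos [Nontrivial α] {w : List (α × Bool)} (h : Filling w) :
    1 ≤ w.length := by
  by_contra hlt
  have hw : w = [] := List.length_eq_zero_iff.1 (by omega)
  subst hw
  obtain ⟨a, b, hab⟩ := exists_pair_ne α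
  have h1 : TurnFill (fun _ => (a, true)) 0 0 := Filling.turnFill (by simpa using h)
  obtain ⟨i, -, hi, -⟩ := h1 (a, true) (fun t => t = (a, false)) ⟨(a, false), by simp, rfl⟩
    ⟨(b, true), by simp [hab.symm], by simp⟩
  omega

lemma UnifFilling.turnFill (d : α × Bool) {L : ℕ} {u : List (α × Bool)} (h : UnifFilling L u)
    (i : ℕ) : TurnFill (xs d u) i L := by
  apply Filling.turnFill
  apply h.2.2
  · simp
  · rw [cycFactor_iff d h.1]
    exact ⟨i, by simp [win]⟩

lemma UnifFilling.pos [Nontrivial α] {L : ℕ} {u : List (α × Bool)} (h : UnifFilling L u) :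
    1 ≤ L := by
  have hn : 1 ≤ u.length := List.length_pos_of_ne_nil h.1
  have d : α × Bool := u.head h.1
  have h1 := h.2.2 (win d u 0 L) (win_length _ _ _ _) (by
    rw [cycFactor_iff d h.1]; exact ⟨0, by rw [win_length]⟩)
  have := h1.length_pos
  rwa [win_length] at this

/-- dependence of the transition counts on the first letters -/
lemma P_congr {x y : ℕ → α × Bool} {m : ℕ} (h : ∀ i, i < m → x i = y i) : P x m = P y m := by
  unfold P
  congr 1
  apply List.map_congr_left
  intro i hi
  exact h i (List.mem_range.1 hi)

lemma tc_congr [DecidableEq α] {χ : FreeGroup α → Bool} {x y : ℕ → α × Bool} {m : ℕ}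
    (h : ∀ i, i ≤ m → x i = y i) : tc χ x m = tc χ y m := by
  unfold tc TS
  congr 1
  ext g
  simp only [Set.mem_ofPred_eq]
  unfold Tr Tr0
  simp only [Nat.zero_add]
  have hP : ∀ i, i ≤ m → P x i = P y i := fun i hi => P_congr (fun k hk => h k (by omega))
  rw [hP 0 (by omega), hP m le_rfl, h 0 (by omega), h m le_rfl]
  by_cases hm : m = 0
  · subst hm
    simp
  · rw [hP 1 (by omega), hP (m-1) (by omega), h 1 (by omega), h (m-1) (by omega)]

/-- weight of a word in the length formula for `φ` -/
noncomputable def wt [DecidableEq α] [Fintype α] (d : α × Bool)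
    (φ : FreeGroup α ≃* FreeGroup α) (w : List (α × Bool)) : ℕ :=
  ∑ a, tc (chiA φ a) (fun i => w.getD i d) (w.length - 1)

lemma wt_win [DecidableEq α] [Fintype α] (d : α × Bool)
    (φ : FreeGroup α ≃* FreeGroup α) (u : List (α × Bool)) (j m : ℕ) :
    wt d φ (win d u j (m+1)) = ∑ a, tc (chiA φ a) (fun i => xs d u (j + i)) m := by
  unfold wt
  apply Finset.sum_congr rfl
  intro a _
  rw [win_length, Nat.add_sub_cancel]
  apply tc_congr
  intro i hi
  rw [List.getD_eq_getElem _ _ (by rw [win_length]; omega)]
  simp [win]

/-- length formula for arbitrary cyclically reduced words -/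
lemma cycLen_formula_word [DecidableEq α] [Nontrivial α] [Fintype α] (d : α × Bool)
    (φ : FreeGroup α ≃* FreeGroup α) :
    ∃ K₀, ∀ (u : List (α × Bool)) (_ : u ≠ []) (_ : FreeGroup.IsCyclicallyReduced u)
      (K : ℕ) (_ : K₀ ≤ K),
    cycLen (φ (FreeGroup.mk u)) =
      ∑ m ∈ Finset.range K, ∑ j ∈ Finset.range u.length, wt d φ (win d u j (m+1)) := by
  obtain ⟨K₀, h⟩ := cyclen_formula_gen φ
  refine ⟨K₀, ?_⟩
  intro u hu hc K hK
  rw [← P_xs d u, h (xs d u) (redSeq_xs d hu hc) u.length (List.length_pos_of_ne_nil hu)
    (xs_periodic d u) K (by intro j m g a h1 h2; omega)]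
  conv_rhs => rw [Finset.sum_comm]
  apply Finset.sum_congr rfl
  intro j _
  rw [Finset.sum_comm]
  apply Finset.sum_congr rfl
  intro m _
  rw [wt_win]

/-- length formula for uniformly filling words -/
lemma cycLen_formula_unif [DecidableEq α] [Nontrivial α] [Fintype α] (d : α × Bool)
    (φ : FreeGroup α ≃* FreeGroup α) {L : ℕ} {u : List (α × Bool)} (h : UnifFilling L u) :
    cycLen (φ (FreeGroup.mk u)) =
      ∑ j ∈ Finset.range u.length, ∑ m ∈ Finset.range (L+1), wt d φ (win d u j (m+1)) := by
  rw [← P_xs d u, cyclen_formula φ (redSeq_xs d h.1 h.2.1) (List.length_pos_of_ne_nil h.1)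
    (xs_periodic d u) h.pos (h.turnFill d)]
  apply Finset.sum_congr rfl
  intro j _
  rw [Finset.sum_comm]
  apply Finset.sum_congr rfl
  intro m _
  rw [wt_win]

/-- words with filling interior have weight zero -/
lemma wt_zero [DecidableEq α] [Nontrivial α] [Fintype α] (d : α × Bool)
    (φ : FreeGroup α ≃* FreeGroup α) {u : List (α × Bool)} (hu : u ≠ [])
    (hc : FreeGroup.IsCyclicallyReduced u) (j m : ℕ)
    (hf : Filling ((win d u j (m+1)).tail.dropLast)) :
    wt d φ (win d u j (m+1)) = 0 := by
  have hm : 2 ≤ m := by
    have := hf.length_pos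
    simp [win_length] at this
    omega
  have hint : (win d u j (m+1)).tail.dropLast =
      (List.range (m-1)).map (fun k => xs d u (j + 1 + k)) := by
    apply List.ext_getElem
    · simp [win_length]
    · intro i h1 h2
      simp [win, List.getElem_dropLast, List.getElem_tail]
      congr 1
      ring
  rw [hint] at hf
  rw [wt_win]
  apply Finset.sum_eq_zero
  intro a _
  obtain ⟨R, hR⟩ := chiA_Bdd φ a
  rw [← TS_ncard, Set.ncard_eq_zero (TS_finite hR (redSeq_xs d hu hc) j m)]
  ext g
  simp only [Set.mem_empty_iff_false, iff_false]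
  exact not_Tr_of_fill (chiA_nested φ a) ((redSeq_xs d hu hc).path g) hR (a := j+1) (L := m-1)
    (by omega) le_rfl (by omega) hf.turnFill

end Run7.h290
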